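import Mathlib
import Pool.Agent.Lib.MP_f973c6_al.Defs

/-! Definitions for the if-half (tame implies FP_m over coefficient rings in which the exponent
is invertible). -/

set_option autoImplicit false

namespace Pool.Agent.FPt

/-- `c, r` is the minimal ball of `s` (certificate form). -/
def MB {E : Type} [NormedAddCommGroup E] [InnerProductSpace ℝ E] (s : Set E) (c : E) (r : ℝ) :
    Prop :=
  (∀ p ∈ s, ‖p - c‖ ≤ r) ∧ c ∈ convexHull ℝ {p ∈ s | ‖p - c‖ = r}

/-- The radius of the minimal ball of the tuple `τ` is at most `R`. -/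
def RadLe {E Q : Type} [NormedAddCommGroup E] [InnerProductSpace ℝ E] (π : Q → E) {n : ℕ}
    (τ : Fin n → Q) (R : ℝ) : Prop :=
  ∃ (c : E) (r : ℝ), MB (Set.range fun i => π (τ i)) c r ∧ r ≤ R

/-- The boundary of tuples. -/
noncomputable def bd (Q B : Type) [CommRing B] (n : ℕ) :
    ((Fin (n + 1) → Q) →₀ B) →ₗ[B] ((Fin n → Q) →₀ B) :=
  Finsupp.linearCombination B
    (fun τ => ∑ p : Fin (n + 1), Finsupp.single (fun i => τ (p.succAbove i)) ((-1 : B) ^ (p : ℕ)))

/-- Chains with radius at most `R` and coefficients in the ideals generated by the products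
of the idempotents `f`. -/
def IsM {E Q B : Type} [NormedAddCommGroup E] [InnerProductSpace ℝ E] [CommRing B] (π : Q → E)
    (f : Q → B) (R : ℝ) {n : ℕ} (v : (Fin n → Q) →₀ B) : Prop :=
  ∀ τ, (∏ i, f (τ i)) * v τ = v τ ∧ (v τ ≠ 0 → RadLe π τ R)

/-- Modules with a partial resolution of length `m` by finitely generated free modules. -/
def FPn (Λ : Type) [Ring Λ] : ℕ → ∀ (M : Type) [AddCommGroup M] [Module Λ M], Prop
  | 0, M, _, _ => Module.Finite Λ M
  | m + 1, M, _, _ => ∃ (n : ℕ) (f : (Fin n → Λ) →ₗ[Λ] M),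
      Function.Surjective f ∧ FPn Λ m (LinearMap.ker f)

/-- The finite type partial resolution of the frozen statement, over the coefficient ring `k`. -/
def FPcondK (k : Type) [CommRing k] (G : Type) [Group G] (m : ℕ) : Prop :=
  ∃ (ε : MonoidAlgebra k G →ₐ[k] k) (n : ℕ → ℕ)
    (d : ∀ i : ℕ, (Fin (n (i + 1)) → MonoidAlgebra k G) →ₗ[MonoidAlgebra k G]
      (Fin (n i) → MonoidAlgebra k G)),
    (∀ g : G, ε (MonoidAlgebra.of k G g) = 1) ∧
    Function.Surjective
        (fun v : Fin (n 0) → MonoidAlgebra k G => ∑ j, ε (v j)) ∧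
      (1 ≤ m → ∀ v : Fin (n 0) → MonoidAlgebra k G,
        (∑ j, ε (v j) = 0 ↔ v ∈ LinearMap.range (d 0))) ∧
      (∀ i : ℕ, i + 1 < m → LinearMap.ker (d i) = LinearMap.range (d (i + 1)))

end Pool.Agent.FPt
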