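import Pool.Agent.Lib.MP_f973c6_al.IfHalf.Defs

/-! Idempotents of the group algebra of a torsion abelian group. -/

set_option autoImplicit false

namespace Pool.Agent.FPt

variable {k A Q : Type} [CommRing k] [CommGroup A] [CommGroup Q]

/-- `c` times the sum of the first `e` powers of `x`. -/
noncomputable def ee (c : k) (e : ℕ) (x : A) : MonoidAlgebra k A :=
  c • ∑ i ∈ Finset.range e, MonoidAlgebra.of k A (x ^ i)

theorem of_mul_ee (c : k) (e : ℕ) (x : A) (hx : x ^ e = 1) :
    MonoidAlgebra.of k A x * ee c e x = ee c e x := by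
  unfold ee
  rw [mul_smul_comm, Finset.mul_sum]
  congr 1
  have h1 : ∀ i ∈ Finset.range e, MonoidAlgebra.of k A x * MonoidAlgebra.of k A (x ^ i) =
      MonoidAlgebra.of k A (x ^ (i + 1)) := by
    intro i _
    rw [← map_mul, pow_succ']
  rw [Finset.sum_congr rfl h1]
  have h2 := Finset.sum_range_succ (fun i => MonoidAlgebra.of k A (x ^ i)) e
  have h3 := Finset.sum_range_succ' (fun i => MonoidAlgebra.of k A (x ^ i)) e
  rw [h2, hx, pow_zero] at h3
  exact (add_right_cancel h3).symm

theorem of_pow_mul {B : MonoidAlgebra k A} {x : A} (h : MonoidAlgebra.of k A x * B = B) (i : ℕ) :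
    MonoidAlgebra.of k A (x ^ i) * B = B := by
  induction i with
  | zero => simp [← MonoidAlgebra.one_def]
  | succ i ih => rw [pow_succ, map_mul, mul_assoc, h, ih]

theorem ee_mul_of_fix (c : k) (e : ℕ) (hc : c * (e : k) = 1) {x : A} {B : MonoidAlgebra k A}
    (h : MonoidAlgebra.of k A x * B = B) : ee c e x * B = B := by
  unfold ee
  rw [smul_mul_assoc, Finset.sum_mul, Finset.sum_congr rfl (fun i _ => of_pow_mul h i)]
  rw [Finset.sum_const, Finset.card_range, ← Nat.cast_smul_eq_nsmul k, smul_smul, hc, one_smul]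

theorem ee_idem (c : k) (e : ℕ) (hc : c * (e : k) = 1) (x : A) (hx : x ^ e = 1) :
    ee c e x * ee c e x = ee c e x :=
  ee_mul_of_fix c e hc (of_mul_ee c e x hx)

/-- The product of the idempotents of the translates of `S`. -/
noncomputable def eps (φ : Q →* MulAut A) (S : Finset A) (c : k) (e : ℕ) (q : Q) :
    MonoidAlgebra k A :=
  ∏ s ∈ S, ee c e (φ q s)

theorem eps_idem (φ : Q →* MulAut A) (S : Finset A) (c : k) (e : ℕ) (hc : c * (e : k) = 1)
    (hA : ∀ a : A, a ^ e = 1) (q : Q) :
    eps φ S c e q * eps φ S c e q = eps φ S c e q := by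
  unfold eps
  rw [← Finset.prod_mul_distrib]
  exact Finset.prod_congr rfl (fun s _ => ee_idem c e hc _ (hA _))

theorem of_mul_eps (φ : Q →* MulAut A) (S : Finset A) (c : k) (e : ℕ)
    (hA : ∀ a : A, a ^ e = 1) (q : Q) {s : A} (hs : s ∈ S) :
    MonoidAlgebra.of k A (φ q s) * eps φ S c e q = eps φ S c e q := by
  classical
  unfold eps
  rw [← Finset.mul_prod_erase S _ hs, ← mul_assoc, of_mul_ee c e _ (hA _)]

/-- The idempotent supported on the characters which are non trivial on the translates by `q`
of elements of `S`. -/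
noncomputable def ff (φ : Q →* MulAut A) (S : Finset A) (c : k) (e : ℕ) (q : Q) :
    MonoidAlgebra k A := 1 - eps φ S c e q

theorem ff_idem (φ : Q →* MulAut A) (S : Finset A) (c : k) (e : ℕ) (hc : c * (e : k) = 1)
    (hA : ∀ a : A, a ^ e = 1) (q : Q) :
    ff φ S c e q * ff φ S c e q = ff φ S c e q := by
  unfold ff
  have := eps_idem φ S c e hc hA q
  linear_combination this

theorem stab_closure (T : Set A) (B : MonoidAlgebra k A)
    (h : ∀ x ∈ T, MonoidAlgebra.of k A x * B = B) :
    ∀ x ∈ Subgroup.closure T, MonoidAlgebra.of k A x * B = B := by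
  intro x hx
  induction hx using Subgroup.closure_induction with
  | mem x hx => exact h x hx
  | one => simp [← MonoidAlgebra.one_def]
  | mul x y _ _ hx hy => rw [map_mul, mul_assoc, hy, hx]
  | inv x _ hx =>
    have h1 : MonoidAlgebra.of k A x⁻¹ * (MonoidAlgebra.of k A x * B) = B := by
      rw [← mul_assoc, ← map_mul, inv_mul_cancel, map_one, one_mul]
    rw [hx] at h1
    exact h1

/-- The vanishing needed in the exactness theorem. -/
theorem ff_mul_prod (φ : Q →* MulAut A) (S : Finset A) (c : k) (e : ℕ) (hc : c * (e : k) = 1)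
    (hA : ∀ a : A, a ^ e = 1) (p : Q) (Z : Finset Q)
    (h : ∀ s ∈ S, φ p s ∈ Subgroup.closure {x : A | ∃ z ∈ Z, ∃ s' ∈ S, x = φ z s'}) :
    ff φ S c e p * ∏ z ∈ Z, (1 - ff φ S c e z) = 0 := by
  classical
  have h0 : ∀ z, 1 - ff φ S c e z = eps φ S c e z := fun z => by unfold ff; ring
  simp only [h0]
  set W := ∏ z ∈ Z, eps φ S c e z with hW
  have h1 : ∀ x ∈ Subgroup.closure {x : A | ∃ z ∈ Z, ∃ s' ∈ S, x = φ z s'},
      MonoidAlgebra.of k A x * W = W := by
    apply stab_closure
    rintro x ⟨z, hz, s', hs', rfl⟩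
    rw [hW, ← Finset.mul_prod_erase Z _ hz, ← mul_assoc, of_mul_eps φ S c e hA z hs']
  have h2 : ∀ T : Finset A, T ⊆ S → (∏ s ∈ T, ee c e (φ p s)) * W = W := by
    intro T
    induction T using Finset.induction_on with
    | empty => intro _; simp
    | insert a T ha ih =>
      intro hT
      rw [Finset.prod_insert ha, mul_assoc, ih (fun x hx => hT (Finset.mem_insert_of_mem hx))]
      exact ee_mul_of_fix c e hc (h1 _ (h a (hT (Finset.mem_insert_self _ _))))
  have h3 : eps φ S c e p * W = W := h2 S (Finset.Subset.refl _)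
  unfold ff
  rw [sub_mul, one_mul, h3, sub_self]

/-- The action of `Q` on the group algebra of `A`. -/
noncomputable def al (k : Type) [CommRing k] (φ : Q →* MulAut A) (q : Q) :
    MonoidAlgebra k A ≃ₐ[k] MonoidAlgebra k A := MonoidAlgebra.domCongr k k (φ q)

theorem al_of (φ : Q →* MulAut A) (q : Q) (a : A) :
    al k φ q (MonoidAlgebra.of k A a) = MonoidAlgebra.of k A (φ q a) := by
  simp [al]

theorem al_ee (φ : Q →* MulAut A) (q : Q) (c : k) (e : ℕ) (x : A) :
    al k φ q (ee c e x) = ee c e (φ q x) := by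
  unfold ee
  rw [map_smul, map_sum]
  congr 1
  exact Finset.sum_congr rfl (fun i _ => by rw [al_of, map_pow])

theorem al_eps (φ : Q →* MulAut A) (S : Finset A) (c : k) (e : ℕ) (p q : Q) :
    al k φ p (eps φ S c e q) = eps φ S c e (p * q) := by
  unfold eps
  rw [map_prod]
  exact Finset.prod_congr rfl (fun s _ => by rw [al_ee, map_mul]; rfl)

theorem al_ff (φ : Q →* MulAut A) (S : Finset A) (c : k) (e : ℕ) (p q : Q) :
    al k φ p (ff φ S c e q) = ff φ S c e (p * q) := by
  unfold ff
  rw [map_sub, map_one, al_eps]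

/-- The augmentation of the group algebra. -/
noncomputable def aug (k A : Type) [CommRing k] [Monoid A] : MonoidAlgebra k A →ₐ[k] k :=
  MonoidAlgebra.lift k k A 1

theorem aug_of (a : A) : aug k A (MonoidAlgebra.of k A a) = 1 := by simp [aug]

theorem aug_ff (φ : Q →* MulAut A) (S : Finset A) (c : k) (e : ℕ) (hc : c * (e : k) = 1)
    (q : Q) : aug k A (ff φ S c e q) = 0 := by
  have h : ∀ x : A, aug k A (ee c e x) = 1 := by
    intro x
    unfold ee
    rw [map_smul, map_sum, Finset.sum_congr rfl (fun i _ => aug_of _)]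
    simp [hc]
  unfold ff eps
  rw [map_sub, map_one, map_prod, Finset.prod_congr rfl (fun s _ => h _)]
  simp

/-- The augmentation ideal is generated by the idempotents `ff`. -/
theorem ker_aug_le (φ : Q →* MulAut A) (S : Finset A) (c : k) (e : ℕ)
    (hA : ∀ a : A, a ^ e = 1)
    (hS : Subgroup.closure {x : A | ∃ q : Q, ∃ s ∈ S, x = φ q s} = ⊤)
    (b : MonoidAlgebra k A) (hb : aug k A b = 0) :
    b ∈ Ideal.span (Set.range (ff φ S c e)) := by
  set J := Ideal.span (Set.range (ff φ S c e)) with hJ
  have h1 : ∀ a : A, MonoidAlgebra.of k A a - 1 ∈ J := by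
    intro a
    have ha : a ∈ Subgroup.closure {x : A | ∃ q : Q, ∃ s ∈ S, x = φ q s} := by
      rw [hS]; trivial
    induction ha using Subgroup.closure_induction with
    | mem x hx =>
      obtain ⟨q, s, hs, rfl⟩ := hx
      have h2 : MonoidAlgebra.of k A (φ q s) - 1 =
          (MonoidAlgebra.of k A (φ q s) - 1) * ff φ S c e q := by
        have := of_mul_eps (k := k) φ S c e hA q hs
        unfold ff
        linear_combination this
      rw [h2]
      exact J.mul_mem_left _ (Ideal.subset_span ⟨q, rfl⟩)
    | one => rw [map_one, sub_self]; exact J.zero_mem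
    | mul x y _ _ hx hy =>
      have : MonoidAlgebra.of k A (x * y) - 1 =
          MonoidAlgebra.of k A x * (MonoidAlgebra.of k A y - 1) + (MonoidAlgebra.of k A x - 1) := by
        rw [map_mul]; ring
      rw [this]
      exact J.add_mem (J.mul_mem_left _ hy) hx
    | inv x _ hx =>
      have : MonoidAlgebra.of k A x⁻¹ - 1 =
          -(MonoidAlgebra.of k A x⁻¹ * (MonoidAlgebra.of k A x - 1)) := by
        rw [mul_sub, ← map_mul, inv_mul_cancel, map_one]; ring
      rw [this]
      exact J.neg_mem (J.mul_mem_left _ hx)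
  have h2 : ∀ b : MonoidAlgebra k A, b - algebraMap k _ (aug k A b) ∈ J := by
    intro b
    induction b using MonoidAlgebra.induction_on with
    | of a => rw [aug_of, map_one]; exact h1 a
    | add x y hx hy =>
      have : x + y - algebraMap k (MonoidAlgebra k A) (aug k A (x + y)) =
          (x - algebraMap k (MonoidAlgebra k A) (aug k A x)) +
          (y - algebraMap k (MonoidAlgebra k A) (aug k A y)) := by
        rw [map_add, map_add]; ring
      rw [this]; exact J.add_mem hx hy
    | smul r x hx =>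
      have : r • x - algebraMap k (MonoidAlgebra k A) (aug k A (r • x)) =
          r • (x - algebraMap k (MonoidAlgebra k A) (aug k A x)) := by
        rw [map_smul, smul_sub, smul_eq_mul, map_mul, ← Algebra.smul_def]
      rw [this, Algebra.smul_def]
      exact J.mul_mem_left _ hx
  have := h2 b
  rwa [hb, map_zero, sub_zero] at this

end Pool.Agent.FPt
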