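import Pool.Agent.Lib.MP_f973c6_al.IfHalf.E1

/-! The modules of chains over the group algebra of the semidirect product. -/

set_option autoImplicit false

namespace Pool.Agent.FPt

variable {k A Q : Type} [CommRing k] [CommGroup A] [CommGroup Q]

/-- The action of a group element on coefficients. -/
noncomputable def bt (k : Type) [CommRing k] (φ : Q →* MulAut A) (g : A ⋊[φ] Q) :
    MonoidAlgebra k A →ₗ[k] MonoidAlgebra k A :=
  (LinearMap.mulLeft k (MonoidAlgebra.of k A g.left)) ∘ₗ (al k φ g.right).toLinearMap

theorem bt_apply (φ : Q →* MulAut A) (g : A ⋊[φ] Q) (b : MonoidAlgebra k A) :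
    bt k φ g b = MonoidAlgebra.of k A g.left * al k φ g.right b := rfl

theorem al_mul (φ : Q →* MulAut A) (p q : Q) (b : MonoidAlgebra k A) :
    al k φ (p * q) b = al k φ p (al k φ q b) := by
  induction b using MonoidAlgebra.induction_on with
  | of a => rw [al_of, al_of, al_of, map_mul]; rfl
  | add x y hx hy => rw [map_add, hx, hy, map_add, map_add]
  | smul r x hx => rw [map_smul, hx, map_smul, map_smul]

theorem al_one (φ : Q →* MulAut A) (b : MonoidAlgebra k A) :
    al k φ 1 b = b := by
  induction b using MonoidAlgebra.induction_on with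
  | of a => rw [al_of, map_one]; rfl
  | add x y hx hy => rw [map_add, hx, hy]
  | smul r x hx => rw [map_smul, hx]

theorem bt_mul (φ : Q →* MulAut A) (g h : A ⋊[φ] Q) (b : MonoidAlgebra k A) :
    bt k φ (g * h) b = bt k φ g (bt k φ h b) := by
  rw [bt_apply, bt_apply, bt_apply, SemidirectProduct.mul_left, SemidirectProduct.mul_right,
    al_mul, map_mul, map_mul, al_of, mul_assoc]

theorem bt_one (φ : Q →* MulAut A) (b : MonoidAlgebra k A) :
    bt k φ 1 b = b := by
  rw [bt_apply, SemidirectProduct.one_left, SemidirectProduct.one_right, al_one, map_one, one_mul]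

theorem bt_mul_coeff (φ : Q →* MulAut A) (g : A ⋊[φ] Q) (b b' : MonoidAlgebra k A) :
    bt k φ g (b * b') = al k φ g.right b * bt k φ g b' := by
  rw [bt_apply, bt_apply, map_mul]; ring

/-- Chains of tuples. -/
abbrev CC (k A Q : Type) [CommRing k] [CommGroup A] (n : ℕ) : Type :=
  (Fin n → Q) →₀ MonoidAlgebra k A

/-- The basic chains. -/
noncomputable abbrev sg {n : ℕ} (τ : Fin n → Q) (b : MonoidAlgebra k A) : CC k A Q n :=
  Finsupp.single τ b

/-- Translation of tuples. -/
def tr {n : ℕ} (q : Q) (τ : Fin n → Q) : Fin n → Q := fun i => q * τ i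

/-- The additive action of a group element on chains. -/
noncomputable def act (φ : Q →* MulAut A) (n : ℕ) (g : A ⋊[φ] Q) :
    CC k A Q n →+ CC k A Q n :=
  (Finsupp.mapDomain.addMonoidHom (tr g.right)).comp
    (Finsupp.mapRange.addMonoidHom (bt k φ g).toAddMonoidHom)

theorem act_sg (φ : Q →* MulAut A) {n : ℕ} (g : A ⋊[φ] Q) (τ : Fin n → Q)
    (b : MonoidAlgebra k A) : act φ n g (sg τ b) = sg (tr g.right τ) (bt k φ g b) := by
  unfold act sg
  simp only [AddMonoidHom.comp_apply, Finsupp.mapRange.addMonoidHom_apply,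
    Finsupp.mapDomain.addMonoidHom_apply]
  rw [Finsupp.mapRange_single, Finsupp.mapDomain_single]
  rfl

omit [CommGroup Q] in
theorem CC_induction {n : ℕ} {P : CC k A Q n → Prop} (h0 : P 0)
    (ha : ∀ x y, P x → P y → P (x + y)) (hs : ∀ τ b, P (sg τ b)) (v : CC k A Q n) : P v :=
  Finsupp.induction_linear v h0 (fun x y => ha x y) (fun τ b => hs τ b)

theorem act_one (φ : Q →* MulAut A) {n : ℕ} (v : CC k A Q n) : act φ n 1 v = v := by
  induction v using CC_induction with
  | h0 => rw [map_zero]
  | ha x y hx hy => rw [map_add, hx, hy]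
  | hs τ b =>
    rw [act_sg, bt_one]
    congr 1
    funext i
    simp [tr]

theorem act_mul (φ : Q →* MulAut A) {n : ℕ} (g h : A ⋊[φ] Q) (v : CC k A Q n) :
    act φ n (g * h) v = act φ n g (act φ n h v) := by
  induction v using CC_induction with
  | h0 => rw [map_zero, map_zero, map_zero]
  | ha x y hx hy => rw [map_add, hx, hy, map_add, map_add]
  | hs τ b =>
    rw [act_sg, act_sg, act_sg, bt_mul]
    congr 1
    funext i
    simp [tr, mul_assoc]


/-- The action as a linear representation. -/
noncomputable def rho (k : Type) [CommRing k] (φ : Q →* MulAut A) (n : ℕ) :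
    (A ⋊[φ] Q) →* Module.End k (CC k A Q n) where
  toFun g :=
    { toFun := act φ n g
      map_add' := map_add _
      map_smul' := by
        intro r v
        induction v using CC_induction with
        | h0 => simp
        | ha x y hx hy =>
          rw [smul_add, map_add, hx, hy, map_add, smul_add]
        | hs τ b =>
          rw [Finsupp.smul_single, act_sg, act_sg, map_smul, RingHom.id_apply,
            Finsupp.smul_single] }
  map_one' := LinearMap.ext (fun v => act_one φ v)
  map_mul' g h := LinearMap.ext (fun v => act_mul φ g h v)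


theorem rho_apply (φ : Q →* MulAut A) (n : ℕ) (g : A ⋊[φ] Q) (v : CC k A Q n) :
    rho k φ n g v = act φ n g v := rfl

/-- The module structure over the group algebra of the semidirect product. -/
noncomputable instance modL (k : Type) [CommRing k] (φ : Q →* MulAut A) (n : ℕ) :
    Module (MonoidAlgebra k (A ⋊[φ] Q)) (CC k A Q n) :=
  Module.compHom (CC k A Q n)
    ((MonoidAlgebra.lift k (Module.End k (CC k A Q n)) (A ⋊[φ] Q) (rho k φ n)).toRingHom)

theorem smul_single_modL (φ : Q →* MulAut A) (n : ℕ) (g : A ⋊[φ] Q) (r : k) (v : CC k A Q n) :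
    (MonoidAlgebra.single g r : MonoidAlgebra k (A ⋊[φ] Q)) • v = r • act φ n g v := by
  change (MonoidAlgebra.lift k (Module.End k (CC k A Q n)) (A ⋊[φ] Q) (rho k φ n)
    (MonoidAlgebra.single g r)) v = _
  rw [MonoidAlgebra.lift_single]
  rfl

theorem smul_of_modL (φ : Q →* MulAut A) (n : ℕ) (g : A ⋊[φ] Q) (v : CC k A Q n) :
    (MonoidAlgebra.of k (A ⋊[φ] Q) g) • v = act φ n g v := by
  rw [MonoidAlgebra.of_apply, smul_single_modL, one_smul]

/-- The `k`-scalars inside the group algebra act as scalars. -/
theorem smul_algebraMap_modL (φ : Q →* MulAut A) (n : ℕ) (r : k)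
    (x : MonoidAlgebra k (A ⋊[φ] Q)) (v : CC k A Q n) :
    (r • x) • v = r • (x • v) := by
  change (MonoidAlgebra.lift k (Module.End k (CC k A Q n)) (A ⋊[φ] Q) (rho k φ n)
    (r • x)) v = _
  rw [map_smul]
  rfl

/-- A group equivariant additive `k`-linear map is linear over the group algebra. -/
theorem equivariant_linear (φ : Q →* MulAut A) {n m : ℕ} (T : CC k A Q n →ₗ[k] CC k A Q m)
    (hT : ∀ g v, T (act φ n g v) = act φ m g (T v)) (x : MonoidAlgebra k (A ⋊[φ] Q))
    (v : CC k A Q n) :
    T (x • v) = x • T v := by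
  induction x using MonoidAlgebra.induction_on with
  | of g => rw [smul_of_modL, smul_of_modL, hT]
  | add x y hx hy => rw [add_smul, add_smul, map_add, hx, hy]
  | smul r x hx =>
    rw [smul_algebraMap_modL, smul_algebraMap_modL, map_smul, hx]

end Pool.Agent.FPt
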