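import Mathlib
import Pool.Agent.Lib.MP_f973c6_al.IfHalf.Defs

/-! Part B of the if-half: minimal enclosing balls in certificate form. -/

set_option autoImplicit false

namespace Pool.Agent.FPt

variable {E : Type} [NormedAddCommGroup E] [InnerProductSpace ℝ E]

/-- The contact set of a minimal ball is non empty. -/
theorem MB.exists_contact {s : Set E} {c : E} {r : ℝ} (h : MB s c r) :
    ∃ p ∈ s, ‖p - c‖ = r := by
  have hne : (convexHull ℝ {p ∈ s | ‖p - c‖ = r}).Nonempty := ⟨c, h.2⟩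
  rw [convexHull_nonempty_iff] at hne
  obtain ⟨p, hp⟩ := hne
  exact ⟨p, hp.1, hp.2⟩

theorem MB.nonneg {s : Set E} {c : E} {r : ℝ} (h : MB s c r) : 0 ≤ r := by
  obtain ⟨p, -, hp⟩ := h.exists_contact
  rw [← hp]
  exact norm_nonneg _

theorem MB.le {s : Set E} {c c' : E} {r r' : ℝ} (h : MB s c r) (h' : ∀ p ∈ s, ‖p - c'‖ ≤ r') :
    ‖c - c'‖ ^ 2 + r ^ 2 ≤ r' ^ 2 := by
  have key : ∀ p : E, ‖p - c'‖ ^ 2 = ‖p - c‖ ^ 2 + 2 * inner ℝ (p - c) (c - c') +
      ‖c - c'‖ ^ 2 := by
    intro p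
    have : p - c' = (p - c) + (c - c') := by abel
    rw [this, norm_add_sq_real]
  have hconv : Convex ℝ {p : E | inner ℝ (c - c') p ≤
      (r' ^ 2 - r ^ 2 - ‖c - c'‖ ^ 2) / 2 + inner ℝ (c - c') c} := by
    have := (convex_halfSpace_le (𝕜 := ℝ) (f := fun p : E => inner ℝ (c - c') p)
      ((innerSL ℝ (c - c')).isLinear)
      ((r' ^ 2 - r ^ 2 - ‖c - c'‖ ^ 2) / 2 + inner ℝ (c - c') c))
    exact this
  have hsub : {p ∈ s | ‖p - c‖ = r} ⊆ {p : E | inner ℝ (c - c') p ≤
      (r' ^ 2 - r ^ 2 - ‖c - c'‖ ^ 2) / 2 + inner ℝ (c - c') c} := by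
    rintro p ⟨hp, hpr⟩
    have h1 := h' p hp
    have h2 : ‖p - c'‖ ^ 2 ≤ r' ^ 2 := by
      have := norm_nonneg (p - c')
      nlinarith
    have h3 := key p
    rw [hpr] at h3
    have h4 : inner ℝ (p - c) (c - c') = inner ℝ (c - c') p - inner ℝ (c - c') c := by
      rw [← inner_sub_right, real_inner_comm]
    show inner ℝ (c - c') p ≤ (r' ^ 2 - r ^ 2 - ‖c - c'‖ ^ 2) / 2 + inner ℝ (c - c') c
    rw [h4] at h3
    linarith
  have hc := convexHull_min hsub hconv h.2
  have hc' : inner ℝ (c - c') c ≤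
      (r' ^ 2 - r ^ 2 - ‖c - c'‖ ^ 2) / 2 + inner ℝ (c - c') c := hc
  linarith

theorem exists_MB (s : Set E) (hs : s.Finite) (hne : s.Nonempty) : ∃ c r, MB s c r := by
  classical
  have : Fintype s := hs.fintype
  have : Nonempty s := hne.to_subtype
  obtain ⟨p0⟩ : Nonempty s := inferInstance
  -- the variance
  let bar : (s → ℝ) → E := fun l => ∑ p : s, l p • (p : E)
  let V : (s → ℝ) → ℝ := fun l => (∑ p : s, l p * ‖(p : E)‖ ^ 2) - ‖bar l‖ ^ 2
  have hVc : Continuous V := by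
    have hbar : Continuous bar :=
      continuous_finsetSum _ fun p _ => (continuous_apply p).smul continuous_const
    exact (continuous_finsetSum _ fun p _ => (continuous_apply p).mul continuous_const).sub
      ((continuous_norm.comp hbar).pow 2)
  obtain ⟨l, hl, hmax⟩ := (isCompact_stdSimplex ℝ s).exists_isMaxOn
    ⟨_, single_mem_stdSimplex ℝ p0⟩ hVc.continuousOn
  set c : E := bar l with hcdef
  have hl0 : ∀ p, 0 ≤ l p := hl.1
  have hl1 : ∑ p, l p = 1 := hl.2
  -- variance identity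
  have hsum : ∑ p : s, l p * ‖(p : E) - c‖ ^ 2 = V l := by
    have h1 : ∀ p : s, l p * ‖(p : E) - c‖ ^ 2 =
        l p * ‖(p : E)‖ ^ 2 - 2 * inner ℝ (l p • (p : E)) c + l p * ‖c‖ ^ 2 := by
      intro p
      rw [norm_sub_sq_real, real_inner_smul_left]
      ring
    rw [Finset.sum_congr rfl fun p _ => h1 p, Finset.sum_add_distrib, Finset.sum_sub_distrib,
      ← Finset.mul_sum, ← sum_inner, ← Finset.sum_mul, hl1]
    have h2 : inner ℝ (∑ p : s, l p • (p : E)) c = ‖c‖ ^ 2 := by
      change inner ℝ c c = _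
      rw [real_inner_self_eq_norm_sq]
    rw [h2]
    show _ = (∑ p : s, l p * ‖(p : E)‖ ^ 2) - ‖c‖ ^ 2
    ring
  -- comparison
  have hle : ∀ p : s, ‖(p : E) - c‖ ^ 2 ≤ V l := by
    intro p
    have hstep : ∀ t : ℝ, 0 < t → t < 1 → (1 - t) * ‖(p : E) - c‖ ^ 2 ≤ V l := by
      intro t ht ht1
      set l' : s → ℝ := (1 - t) • l + t • Pi.single p (1 : ℝ) with hl'
      have hmem : l' ∈ stdSimplex ℝ s :=
        convex_stdSimplex ℝ s hl (single_mem_stdSimplex ℝ p) (by linarith) ht.le (by ring)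
      have hV' := hmax hmem
      have hVl' : V l' ≤ V l := hV'
      have hbar' : bar l' = (1 - t) • c + t • (p : E) := by
        show ∑ q : s, l' q • (q : E) = _
        have : ∀ q : s, l' q • (q : E) = (1 - t) • (l q • (q : E)) +
            t • ((Pi.single p (1 : ℝ) : s → ℝ) q • (q : E)) := by
          intro q
          simp only [hl', Pi.add_apply, Pi.smul_apply, smul_eq_mul, add_smul, mul_smul]
        rw [Finset.sum_congr rfl fun q _ => this q, Finset.sum_add_distrib, ← Finset.smul_sum,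
          ← Finset.smul_sum]
        congr 2
        rw [Finset.sum_eq_single p]
        · simp
        · intro q _ hq
          simp [Pi.single_apply, hq]
        · intro h
          exact absurd (Finset.mem_univ _) h
      have hsq' : ∑ q : s, l' q * ‖(q : E)‖ ^ 2 =
          (1 - t) * (∑ q : s, l q * ‖(q : E)‖ ^ 2) + t * ‖(p : E)‖ ^ 2 := by
        have : ∀ q : s, l' q * ‖(q : E)‖ ^ 2 = (1 - t) * (l q * ‖(q : E)‖ ^ 2) +
            t * ((Pi.single p (1 : ℝ) : s → ℝ) q * ‖(q : E)‖ ^ 2) := by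
          intro q
          simp only [hl', Pi.add_apply, Pi.smul_apply, smul_eq_mul]
          ring
        rw [Finset.sum_congr rfl fun q _ => this q, Finset.sum_add_distrib, ← Finset.mul_sum,
          ← Finset.mul_sum]
        congr 2
        rw [Finset.sum_eq_single p]
        · simp
        · intro q _ hq
          simp [Pi.single_apply, hq]
        · intro h
          exact absurd (Finset.mem_univ _) h
      have hnorm : ‖(1 - t) • c + t • (p : E)‖ ^ 2 =
          (1 - t) * ‖c‖ ^ 2 + t * ‖(p : E)‖ ^ 2 - t * (1 - t) * ‖(p : E) - c‖ ^ 2 := by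
        rw [norm_add_sq_real, norm_smul, norm_smul, real_inner_smul_left, real_inner_smul_right,
          norm_sub_sq_real, mul_pow, mul_pow, Real.norm_eq_abs, Real.norm_eq_abs, sq_abs, sq_abs,
          real_inner_comm c (p : E)]
        ring
      have hVeq : V l' = (1 - t) * V l + t * (1 - t) * ‖(p : E) - c‖ ^ 2 := by
        show (∑ q : s, l' q * ‖(q : E)‖ ^ 2) - ‖bar l'‖ ^ 2 =
          (1 - t) * ((∑ q : s, l q * ‖(q : E)‖ ^ 2) - ‖c‖ ^ 2) + _
        rw [hsq', hbar', hnorm]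
        ring
      rw [hVeq] at hVl'
      have : t * ((1 - t) * ‖(p : E) - c‖ ^ 2) ≤ t * V l := by linarith
      exact le_of_mul_le_mul_left this ht
    -- let t tend to 0
    by_contra hcon
    push Not at hcon
    set x := ‖(p : E) - c‖ ^ 2 with hx
    have hVnn : 0 ≤ V l := by
      rw [← hsum]
      exact Finset.sum_nonneg fun q _ => mul_nonneg (hl0 q) (sq_nonneg _)
    have hxpos : 0 < x := lt_of_le_of_lt hVnn hcon
    have h3 := hstep ((x - V l) / (2 * x)) (div_pos (by linarith) (by positivity)) (by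
      rw [div_lt_one (by positivity)]
      linarith)
    have h4 : (1 - (x - V l) / (2 * x)) * x = (x + V l) / 2 := by
      field_simp
      ring
    rw [h4] at h3
    linarith
  refine ⟨c, Real.sqrt (V l), ?_, ?_⟩
  · intro p hp
    exact Real.le_sqrt_of_sq_le (hle ⟨p, hp⟩)
  · have hzero : ∀ p : s, l p * (V l - ‖(p : E) - c‖ ^ 2) = 0 := by
      have hnn : ∀ p ∈ (Finset.univ : Finset s), 0 ≤ l p * (V l - ‖(p : E) - c‖ ^ 2) :=
        fun p _ => mul_nonneg (hl0 p) (sub_nonneg.2 (hle p))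
      have htot : ∑ p : s, l p * (V l - ‖(p : E) - c‖ ^ 2) = 0 := by
        simp only [mul_sub]
        rw [Finset.sum_sub_distrib, ← Finset.sum_mul, hl1, hsum]
        ring
      intro p
      exact (Finset.sum_eq_zero_iff_of_nonneg hnn).1 htot p (Finset.mem_univ _)
    have hcon : ∀ p : s, 0 < l p → (p : E) ∈ {q ∈ s | ‖q - c‖ = Real.sqrt (V l)} := by
      intro p hp
      refine ⟨p.2, ?_⟩
      have h1 : V l - ‖(p : E) - c‖ ^ 2 = 0 := by
        rcases mul_eq_zero.1 (hzero p) with h | h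
        · exact absurd h hp.ne'
        · exact h
      have h2 : V l = ‖(p : E) - c‖ ^ 2 := by linarith
      rw [h2, Real.sqrt_sq (norm_nonneg _)]
    have hmem : (Finset.univ.filter fun p : s => l p ≠ 0).centerMass l (fun p : s => (p : E)) ∈
        convexHull ℝ {q ∈ s | ‖q - c‖ = Real.sqrt (V l)} := by
      refine Finset.centerMass_mem_convexHull _ (fun p _ => hl0 p) ?_ ?_
      · rw [Finset.sum_filter_ne_zero, hl1]
        exact one_pos
      · intro p hp
        have hp' : l p ≠ 0 := (Finset.mem_filter.1 hp).2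
        exact hcon p (lt_of_le_of_ne (hl0 p) (Ne.symm hp'))
    rw [Finset.centerMass_filter_ne_zero, Finset.centerMass_eq_of_sum_1 _ _ hl1] at hmem
    exact hmem

theorem MB.unique {s : Set E} {c c' : E} {r r' : ℝ} (h : MB s c r) (h' : MB s c' r') :
    c = c' ∧ r = r' := by
  have h1 := h.le h'.1
  have h2 := h'.le h.1
  rw [norm_sub_rev] at h2
  have h3 := sq_nonneg ‖c - c'‖
  have h4 : ‖c - c'‖ ^ 2 = 0 := by linarith
  have h5 : r ^ 2 = r' ^ 2 := by linarith
  constructor
  · have h6 : ‖c - c'‖ = 0 := by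
      rcases pow_eq_zero_iff (two_ne_zero) |>.1 h4 with h
      exact h
    exact sub_eq_zero.1 (norm_eq_zero.1 h6)
  · exact (pow_left_inj₀ h.nonneg h'.nonneg two_ne_zero).1 h5

theorem MB.mono {s t : Set E} {c c' : E} {r r' : ℝ} (h : MB s c r) (h' : MB t c' r')
    (hst : s ⊆ t) : r ≤ r' := by
  have h1 := h.le fun p hp => h'.1 p (hst hp)
  have h3 := sq_nonneg ‖c - c'‖
  exact (pow_le_pow_iff_left₀ h.nonneg h'.nonneg two_ne_zero).1 (by linarith)

theorem MB.center_eq {s t : Set E} {c c' : E} {r : ℝ} (h : MB s c r) (h' : MB t c' r)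
    (hst : s ⊆ t) : c = c' := by
  have h1 := h.le fun p hp => h'.1 p (hst hp)
  have h3 := sq_nonneg ‖c - c'‖
  have h4 : ‖c - c'‖ ^ 2 = 0 := by linarith
  exact sub_eq_zero.1 (norm_eq_zero.1 ((pow_eq_zero_iff two_ne_zero).1 h4))

theorem MB.insert_point {s : Set E} {c z : E} {r : ℝ} (h : MB s c r) (hz : ‖z - c‖ ≤ r) :
    MB (insert z s) c r := by
  refine ⟨?_, ?_⟩
  · intro p hp
    rcases Set.mem_insert_iff.1 hp with rfl | hp
    · exact hz
    · exact h.1 p hp
  · refine convexHull_mono ?_ h.2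
    rintro p ⟨hp, hpr⟩
    exact ⟨Set.mem_insert_of_mem _ hp, hpr⟩

theorem MB.insert_point_lt {s : Set E} {c c₁ c' z : E} {r r₁ r' : ℝ} (h : MB s c₁ r₁)
    (hs : ∀ p ∈ s, ‖p - c‖ ≤ r) (hr : r₁ < r) (hz : ‖z - c‖ < r) (h' : MB (insert z s) c' r') :
    r' < r := by
  have hall : ∀ p ∈ insert z s, ‖p - c‖ ≤ r := by
    intro p hp
    rcases Set.mem_insert_iff.1 hp with rfl | hp
    · exact hz.le
    · exact hs p hp
  have hrpos : 0 ≤ r := h.nonneg.trans hr.le
  have h1 := h'.le hall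
  have h3 := sq_nonneg ‖c' - c‖
  have hle : r' ≤ r := (pow_le_pow_iff_left₀ h'.nonneg hrpos two_ne_zero).1 (by linarith)
  rcases lt_or_eq_of_le hle with hlt | heq
  · exact hlt
  · exfalso
    rw [heq] at h1
    have h4 : ‖c' - c‖ ^ 2 = 0 := by linarith
    have hc : c' = c := sub_eq_zero.1 (norm_eq_zero.1 ((pow_eq_zero_iff two_ne_zero).1 h4))
    have hMB : MB s c r := by
      refine ⟨hs, ?_⟩
      have h5 := h'.2
      rw [hc, heq] at h5
      refine convexHull_mono ?_ h5
      rintro p ⟨hp, hpr⟩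
      rcases Set.mem_insert_iff.1 hp with rfl | hp
      · exact absurd hpr hz.ne
      · exact ⟨hp, hpr⟩
    have := (MB.unique h hMB).2
    exact absurd this hr.ne

theorem MB.translate {s : Set E} {c a : E} {r : ℝ} (h : MB s c r) :
    MB ((fun p => a + p) '' s) (a + c) r := by
  refine ⟨?_, ?_⟩
  · rintro _ ⟨p, hp, rfl⟩
    have : (fun p => a + p) p - (a + c) = p - c := by
      show a + p - (a + c) = p - c
      abel
    rw [this]
    exact h.1 p hp
  · have h1 : a + c ∈ (fun p => a + p) '' (convexHull ℝ {p ∈ s | ‖p - c‖ = r}) := ⟨c, h.2, rfl⟩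
    have h2 : (fun p => a + p) '' (convexHull ℝ {p ∈ s | ‖p - c‖ = r}) =
        convexHull ℝ ((fun p => a + p) '' {p ∈ s | ‖p - c‖ = r}) :=
      (AffineEquiv.constVAdd ℝ E a).toAffineMap.image_convexHull {p ∈ s | ‖p - c‖ = r}
    rw [h2] at h1
    refine convexHull_mono ?_ h1
    rintro _ ⟨p, ⟨hp, hpr⟩, rfl⟩
    refine ⟨⟨p, hp, rfl⟩, ?_⟩
    have : (fun p => a + p) p - (a + c) = p - c := by
      show a + p - (a + c) = p - c
      abel
    rw [this]
    exact hpr

end Pool.Agent.FPt
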