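import Pool.Agent.Lib.MP_f973c6_al.IfHalf.E2
import Pool.Agent.Lib.MP_f973c6_al.IfHalf.PartB

/-! The submodules of chains of bounded radius: they are finitely generated and projective. -/

set_option autoImplicit false

namespace Pool.Agent.FPt

variable {k A Q : Type} [CommRing k] [CommGroup A] [CommGroup Q]

theorem act_apply (φ : Q →* MulAut A) {n : ℕ} (g : A ⋊[φ] Q) (v : CC k A Q n) (τ : Fin n → Q) :
    act φ n g v τ = bt k φ g (v (tr g.right⁻¹ τ)) := by
  classical
  induction v using CC_induction with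
  | h0 => simp
  | ha x y hx hy => rw [map_add, Finsupp.add_apply, hx, hy, Finsupp.add_apply, map_add]
  | hs σ b =>
    rw [act_sg]
    by_cases h : tr g.right σ = τ
    · have h3 : tr g.right⁻¹ (tr g.right σ) = σ := by funext i; simp [tr]
      rw [← h, h3]
      simp only [sg]
      rw [Finsupp.single_eq_same, Finsupp.single_eq_same]
    · have h2 : σ ≠ tr g.right⁻¹ τ := by
        intro h3; apply h; rw [h3]; funext i; simp [tr]
      simp only [sg]
      rw [Finsupp.single_apply, if_neg h, Finsupp.single_apply, if_neg h2, map_zero]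

variable {E : Type} [NormedAddCommGroup E] [InnerProductSpace ℝ E]

omit [CommGroup A] in
theorem RadLe_tr (π : Q → E) (hπ : ∀ p q, π (p * q) = π p + π q) {n : ℕ} (τ : Fin n → Q)
    (q : Q) (R : ℝ) (h : RadLe π τ R) : RadLe π (tr q τ) R := by
  obtain ⟨c, r, h, hr⟩ := h
  refine ⟨π q + c, r, ?_, hr⟩
  have := h.translate (a := π q)
  have h2 : (fun p => π q + p) '' (Set.range fun i => π (τ i)) = Set.range fun i => π (tr q τ i) := by
    ext x
    simp only [Set.mem_image, Set.mem_range, exists_exists_eq_and, tr, hπ]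
  rwa [h2] at this

/-- The submodule of chains of radius at most `R` with coefficients in the ideals of the
idempotents `f`. -/
noncomputable def MS (φ : Q →* MulAut A) (π : Q → E) (hπ : ∀ p q, π (p * q) = π p + π q)
    (f : Q → MonoidAlgebra k A) (hf : ∀ p q, al k φ p (f q) = f (p * q)) (R : ℝ) (n : ℕ) :
    Submodule (MonoidAlgebra k (A ⋊[φ] Q)) (CC k A Q n) where
  carrier := {v | IsM π f R v}
  add_mem' := by
    intro v w hv hw τ
    refine ⟨by rw [Finsupp.add_apply, mul_add, (hv τ).1, (hw τ).1], fun h => ?_⟩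
    by_cases h1 : v τ = 0
    · by_cases h2 : w τ = 0
      · exact absurd (by rw [Finsupp.add_apply, h1, h2, add_zero]) h
      · exact (hw τ).2 h2
    · exact (hv τ).2 h1
  zero_mem' := by
    intro τ
    exact ⟨by simp, fun h => absurd rfl h⟩
  smul_mem' := by
    intro x v hv
    change IsM π f R v at hv
    change IsM π f R (x • v)
    induction x using MonoidAlgebra.induction_on with
    | of g =>
      rw [smul_of_modL]
      intro τ
      rw [act_apply]
      constructor
      · have h1 : (∏ i, f (τ i)) = al k φ g.right (∏ i, f (tr g.right⁻¹ τ i)) := by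
          rw [map_prod]
          refine Finset.prod_congr rfl (fun i _ => ?_)
          rw [hf]; simp [tr]
        rw [h1, ← bt_mul_coeff, (hv _).1]
      · intro h
        have h1 : v (tr g.right⁻¹ τ) ≠ 0 := by
          intro h2; apply h; rw [h2, map_zero]
        have h2 := RadLe_tr π hπ _ g.right R ((hv _).2 h1)
        have h3 : tr g.right (tr g.right⁻¹ τ) = τ := by funext i; simp [tr]
        rwa [h3] at h2
    | add x y hx hy =>
      rw [add_smul]
      intro τ
      refine ⟨by rw [Finsupp.add_apply, mul_add, (hx τ).1, (hy τ).1], fun h => ?_⟩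
      by_cases h1 : (x • v) τ = 0
      · by_cases h2 : (y • v) τ = 0
        · exact absurd (by rw [Finsupp.add_apply, h1, h2, add_zero]) h
        · exact (hy τ).2 h2
      · exact (hx τ).2 h1
    | smul r x hx =>
      rw [smul_algebraMap_modL]
      intro τ
      rw [Finsupp.smul_apply]
      refine ⟨by rw [mul_smul_comm, (hx τ).1], fun h => (hx τ).2 (fun h1 => h ?_)⟩
      rw [h1, smul_zero]

theorem mem_MS (φ : Q →* MulAut A) (π : Q → E) (hπ : ∀ p q, π (p * q) = π p + π q)
    (f : Q → MonoidAlgebra k A) (hf : ∀ p q, al k φ p (f q) = f (p * q)) (R : ℝ) (n : ℕ)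
    (v : CC k A Q n) : v ∈ MS φ π hπ f hf R n ↔ IsM π f R v := Iff.rfl


theorem of_mem_MS_one {φ : Q →* MulAut A} {π : Q → E} {R : ℝ} {n : ℕ}
    {f : Q → MonoidAlgebra k A} {v : CC k A Q n} (h : IsM π f R v) :
    IsM π (fun _ => (1 : MonoidAlgebra k A)) R v := by
  intro τ
  exact ⟨by simp, (h τ).2⟩

/-- Normalised tuples: the first entry is one. -/
def TT (π : Q → E) (R : ℝ) (n : ℕ) : Type :=
  {t : Fin n → Q // RadLe π (Fin.cons 1 t : Fin (n + 1) → Q) R}

omit [CommGroup A] in
theorem TT_finite (π : Q → E) (hfin : ∀ (c : E) (r : ℝ), {q | ‖π q - c‖ ≤ r}.Finite) (R : ℝ)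
    (n : ℕ) : Finite (TT π R n) := by
  have h1 : (Set.pi Set.univ (fun _ : Fin n => {q | ‖π q - π 1‖ ≤ 2 * R})).Finite :=
    Set.Finite.pi' (fun _ => hfin (π 1) (2 * R)) |>.subset (by
      intro t ht; simpa using ht)
  have h2 : {t : Fin n → Q | RadLe π (Fin.cons 1 t : Fin (n + 1) → Q) R}.Finite := by
    refine h1.subset ?_
    rintro t ⟨c, r, h, hr⟩ i _
    have h3 := h.1 (π (t i)) ⟨i.succ, by simp⟩
    have h4 := h.1 (π 1) ⟨0, by simp⟩
    have h5 : π (t i) - π 1 = (π (t i) - c) - (π 1 - c) := by abel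
    change ‖π (t i) - π 1‖ ≤ 2 * R
    rw [h5]
    calc _ ≤ ‖π (t i) - c‖ + ‖π 1 - c‖ := norm_sub_le _ _
      _ ≤ r + r := add_le_add h3 h4
      _ ≤ 2 * R := by linarith
  exact h2.to_subtype

/-- The linear map from a free module onto the chains of radius at most `R`. -/
noncomputable def Ph (k : Type) [CommRing k] (φ : Q →* MulAut A) (π : Q → E) (R : ℝ) (n : ℕ) :
    (TT π R n →₀ MonoidAlgebra k (A ⋊[φ] Q)) →ₗ[MonoidAlgebra k (A ⋊[φ] Q)]
      CC k A Q (n + 1) :=
  Finsupp.linearCombination _ (fun t => sg (Fin.cons 1 t.1 : Fin (n + 1) → Q) 1)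

theorem Ph_single (φ : Q →* MulAut A) (π : Q → E) (R : ℝ) (n : ℕ) (t : TT π R n)
    (g : A ⋊[φ] Q) (r : k) :
    Ph k φ π R n (Finsupp.single t (MonoidAlgebra.single g r)) =
      sg (tr g.right (Fin.cons 1 t.1 : Fin (n + 1) → Q)) (MonoidAlgebra.single g.left r) := by
  unfold Ph
  rw [Finsupp.linearCombination_single, smul_single_modL, act_sg, bt_apply, map_one, mul_one,
    Finsupp.smul_single]
  congr 1
  rw [MonoidAlgebra.of_apply, MonoidAlgebra.smul_single, smul_eq_mul, mul_one]

theorem Ph_coeff (φ : Q →* MulAut A) (π : Q → E) (R : ℝ) (n : ℕ)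
    (x : TT π R n →₀ MonoidAlgebra k (A ⋊[φ] Q)) (t : TT π R n) (g : A ⋊[φ] Q) :
    (Ph k φ π R n x (tr g.right (Fin.cons 1 t.1 : Fin (n + 1) → Q))).coeff g.left =
      (x t).coeff g := by
  classical
  induction x using Finsupp.induction_linear with
  | zero => simp
  | add x y hx hy =>
    rw [map_add, Finsupp.add_apply, MonoidAlgebra.coeff_add, Finsupp.add_apply, hx, hy,
      Finsupp.add_apply, MonoidAlgebra.coeff_add, Finsupp.add_apply]
  | single t' y =>
    induction y using MonoidAlgebra.induction_linear with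
    | zero => simp
    | add x y hx hy =>
      rw [Finsupp.single_add, map_add, Finsupp.add_apply, MonoidAlgebra.coeff_add,
        Finsupp.add_apply, hx, hy, Finsupp.add_apply, MonoidAlgebra.coeff_add, Finsupp.add_apply]
    | single g' r =>
      rw [Ph_single]
      simp only [sg]
      rw [Finsupp.single_apply, Finsupp.single_apply]
      by_cases h : tr g'.right (Fin.cons 1 t'.1 : Fin (n + 1) → Q) =
          tr g.right (Fin.cons 1 t.1 : Fin (n + 1) → Q)
      · have h1 : g'.right = g.right := by
          have := congrFun h 0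
          simpa [tr] using this
        have h2 : t' = t := by
          apply Subtype.ext
          funext i
          have := congrFun h i.succ
          simpa [tr, h1] using this
        rw [if_pos h, if_pos h2, MonoidAlgebra.coeff_single, MonoidAlgebra.coeff_single,
          Finsupp.single_apply, Finsupp.single_apply]
        by_cases h3 : g'.left = g.left
        · rw [if_pos h3, if_pos (SemidirectProduct.ext h3 h1)]
        · rw [if_neg h3, if_neg (fun h4 => h3 (by rw [h4]))]
      · rw [if_neg h]
        by_cases h2 : t' = t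
        · rw [if_pos h2, MonoidAlgebra.coeff_single, Finsupp.single_apply, if_neg]
          · simp
          · intro h3; apply h; rw [h3, h2]
        · rw [if_neg h2]; simp

theorem Ph_injective (φ : Q →* MulAut A) (π : Q → E) (R : ℝ) (n : ℕ) :
    Function.Injective (Ph k φ π R n) := by
  intro x y hxy
  refine Finsupp.ext (fun t => ?_)
  refine MonoidAlgebra.ext (Finsupp.ext (fun g => ?_))
  rw [← Ph_coeff, ← Ph_coeff, hxy]

theorem Ph_range (φ : Q →* MulAut A) (π : Q → E) (hπ : ∀ p q, π (p * q) = π p + π q) (R : ℝ)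
    (n : ℕ) : LinearMap.range (Ph k φ π R n) =
      MS φ π hπ (fun _ => (1 : MonoidAlgebra k A)) (fun p q => map_one _) R (n + 1) := by
  classical
  apply le_antisymm
  · rintro _ ⟨x, rfl⟩
    unfold Ph
    rw [Finsupp.linearCombination_apply]
    refine Submodule.sum_mem _ (fun t _ => Submodule.smul_mem _ _ ?_)
    rw [mem_MS]
    intro τ
    refine ⟨by simp, fun h => ?_⟩
    simp only [sg] at h
    rw [Finsupp.single_apply] at h
    by_cases h2 : (Fin.cons 1 t.1 : Fin (n + 1) → Q) = τ
    · rw [← h2]; exact t.2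
    · rw [if_neg h2] at h; exact absurd rfl h
  · intro v hv
    have h1 : ∀ (τ : Fin (n + 1) → Q), RadLe π τ R → ∀ b : MonoidAlgebra k A,
        (sg τ b : CC k A Q (n + 1)) ∈ LinearMap.range (Ph k φ π R n) := by
      intro τ hτ b
      induction b using MonoidAlgebra.induction_linear with
      | zero => simp
      | add x y hx hy =>
        have : (sg τ (x + y) : CC k A Q (n + 1)) = sg τ x + sg τ y := Finsupp.single_add _ _ _
        rw [this]
        exact Submodule.add_mem _ hx hy
      | single a r =>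
        have h2 : tr (τ 0)⁻¹ τ = (Fin.cons 1 (fun i => (τ 0)⁻¹ * τ i.succ) : Fin (n + 1) → Q) := by
          funext i
          refine Fin.cases ?_ (fun i => ?_) i
          · simp [tr]
          · simp [tr]
        have h3 : RadLe π (Fin.cons 1 (fun i => (τ 0)⁻¹ * τ i.succ) : Fin (n + 1) → Q) R := by
          rw [← h2]; exact RadLe_tr π hπ τ _ R hτ
        have key := Ph_single (k := k) φ π R n (⟨_, h3⟩ : TT π R n) ⟨a, τ 0⟩ r
        refine ⟨_, key.trans ?_⟩
        congr 1
        change tr (τ 0) (Fin.cons 1 (fun i => (τ 0)⁻¹ * τ i.succ) : Fin (n + 1) → Q) = τ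
        rw [← h2]
        funext i; simp [tr]
    have h2 : v = v.sum (fun τ b => sg τ b) := (Finsupp.sum_single v).symm
    rw [h2]
    refine Submodule.sum_mem _ (fun τ hτ => h1 τ ?_ _)
    exact (hv τ).2 (Finsupp.mem_support_iff.mp hτ)

end Pool.Agent.FPt
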