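import Pool.Agent.Lib.MP_f973c6_al.IfHalf.PartB

/-! Part C: the exactness theorem for Cech chains with idempotent coefficients. -/

set_option autoImplicit false
set_option linter.all false

namespace Pool.Agent.FPt

section C
variable {E Q B : Type} [NormedAddCommGroup E] [InnerProductSpace ℝ E] [CommRing B]

theorem bd_single (n : ℕ) (τ : Fin (n + 1) → Q) (b : B) :
    bd Q B n (Finsupp.single τ b) =
      ∑ p : Fin (n + 1), Finsupp.single (fun i => τ (p.succAbove i)) (b * (-1 : B) ^ (p : ℕ)) := by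
  unfold bd
  rw [Finsupp.linearCombination_single, Finset.smul_sum]
  refine Finset.sum_congr rfl fun p _ => ?_
  rw [Finsupp.smul_single, smul_eq_mul]

theorem bd_bd (n : ℕ) (v : (Fin (n + 2) → Q) →₀ B) : bd Q B n (bd Q B (n + 1) v) = 0 := by
  induction v using Finsupp.induction_linear with
  | zero => simp
  | add x y hx hy => rw [map_add, map_add, hx, hy, add_zero]
  | single τ b =>
    rw [bd_single, map_sum]
    simp_rw [bd_single]
    rw [← Finset.sum_product', Finset.univ_product_univ]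
    refine Finset.sum_involution
      (fun (a : Fin (n + 2) × Fin (n + 1)) _ => (a.1.succAbove a.2, a.2.predAbove a.1)) ?_ ?_ ?_ ?_
    · rintro ⟨p, q⟩ _
      dsimp only
      have h1 : (fun i => τ ((p.succAbove q).succAbove ((q.predAbove p).succAbove i))) =
          fun i => τ (p.succAbove (q.succAbove i)) := by
        funext i
        rw [Fin.succAbove_succAbove_succAbove_predAbove]
      rw [h1, ← Finsupp.single_add]
      have h2 : b * (-1 : B) ^ (p : ℕ) * (-1 : B) ^ (q : ℕ) +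
          b * (-1 : B) ^ ((p.succAbove q : Fin (n + 2)) : ℕ) *
            (-1 : B) ^ ((q.predAbove p : Fin (n + 1)) : ℕ) = 0 := by
        have h3 := Fin.neg_one_pow_succAbove_add_predAbove (R := B) p q
        rw [mul_assoc, mul_assoc, ← pow_add, ← pow_add, h3]
        ring
      rw [h2, Finsupp.single_zero]
    · rintro ⟨p, q⟩ _ _ h
      exact Fin.succAbove_ne p q (congrArg Prod.fst h)
    · intro a _
      exact Finset.mem_univ _
    · rintro ⟨p, q⟩ _
      dsimp only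
      rw [Fin.succAbove_succAbove_predAbove, Fin.predAbove_predAbove_succAbove]

/-- Discreteness of the set of radii. -/
theorem radii_finite [Group Q] (π : Q → E) (hπ : ∀ p q, π (p * q) = π p + π q)
    (hfin : ∀ (c : E) (r : ℝ), {q | ‖π q - c‖ ≤ r}.Finite) (R : ℝ) (n : ℕ) :
    {r : ℝ | r ≤ R ∧ ∃ (τ : Fin n → Q) (c : E), MB (Set.range fun i => π (τ i)) c r}.Finite := by
  classical
  rcases n with _ | n
  · refine Set.Finite.subset Set.finite_empty ?_
    rintro r ⟨_, τ, c, hmb⟩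
    exfalso
    have h2 := hmb.2
    have h3 : {p ∈ Set.range fun i : Fin 0 => π (τ i) | ‖p - c‖ = r} = (∅ : Set E) := by
      apply Set.eq_empty_of_forall_notMem
      rintro p ⟨⟨i, _⟩, _⟩
      exact i.elim0
    rw [h3, convexHull_empty] at h2
    exact h2
  · -- normalised tuples
    have hπ1 : π 1 = 0 := by
      have := hπ 1 1
      rw [mul_one] at this
      exact left_eq_add.mp this
    have hF : {g : Fin (n + 1) → Q | ∀ i, g i ∈ {q : Q | ‖π q - 0‖ ≤ 2 * R}}.Finite :=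
      Set.Finite.pi' fun _ => hfin 0 (2 * R)
    let rad : (Fin (n + 1) → Q) → ℝ := fun τ =>
      if h : ∃ (r : ℝ) (c : E), MB (Set.range fun i => π (τ i)) c r then h.choose else 0
    refine Set.Finite.subset (hF.image rad) ?_
    rintro r ⟨hr, τ, c, hmb⟩
    refine ⟨fun i => (τ 0)⁻¹ * τ i, ?_, ?_⟩
    · intro i
      have h0 := hmb.1 (π (τ 0)) ⟨0, rfl⟩
      have hi := hmb.1 (π (τ i)) ⟨i, rfl⟩
      have hinv : π ((τ 0)⁻¹) = - π (τ 0) := by
        have := hπ (τ 0) ((τ 0)⁻¹)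
        rw [mul_inv_cancel, hπ1] at this
        exact (neg_eq_of_add_eq_zero_right this.symm).symm
      have e1 : π ((τ 0)⁻¹ * τ i) - 0 = (π (τ i) - c) - (π (τ 0) - c) := by
        rw [hπ, hinv]; abel
      show ‖π ((τ 0)⁻¹ * τ i) - 0‖ ≤ 2 * R
      rw [e1]
      calc ‖(π (τ i) - c) - (π (τ 0) - c)‖ ≤ ‖π (τ i) - c‖ + ‖π (τ 0) - c‖ := norm_sub_le _ _
        _ ≤ r + r := add_le_add hi h0
        _ ≤ 2 * R := by linarith
    · have hmb' := hmb.translate (a := π ((τ 0)⁻¹))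
      have hset : ((fun p => π ((τ 0)⁻¹) + p) '' Set.range fun i => π (τ i)) =
          Set.range fun i => π ((τ 0)⁻¹ * τ i) := by
        rw [← Set.range_comp]
        congr 1
        funext i
        simp [hπ]
      rw [hset] at hmb'
      have hex : ∃ (r : ℝ) (c : E),
          MB (Set.range fun i => π ((fun i => (τ 0)⁻¹ * τ i) i)) c r := ⟨r, _, hmb'⟩
      show (if h : ∃ (r : ℝ) (c : E),
        MB (Set.range fun i => π ((fun i => (τ 0)⁻¹ * τ i) i)) c r then h.choose else 0) = r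
      rw [dif_pos hex]
      obtain ⟨c'', hc''⟩ := hex.choose_spec
      exact (hc''.unique hmb').2

/-- Add the point `z` in front. -/
noncomputable def consMap (B : Type) [CommRing B] {Q : Type} {k : ℕ} (z : Q) :
    ((Fin k → Q) →₀ B) →ₗ[B] ((Fin (k + 1) → Q) →₀ B) :=
  Finsupp.lmapDomain B B (fun τ : Fin k → Q => (Fin.cons z τ : Fin (k + 1) → Q))

theorem consMap_single {k : ℕ} (z : Q) (τ : Fin k → Q) (b : B) :
    consMap B z (Finsupp.single τ b) = Finsupp.single (Fin.cons z τ : Fin (k + 1) → Q) b := by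
  unfold consMap
  rw [Finsupp.lmapDomain_apply, Finsupp.mapDomain_single]

theorem bd_consMap {k : ℕ} (z : Q) (x : (Fin (k + 1) → Q) →₀ B) :
    bd Q B (k + 1) (consMap B z x) = x - consMap B z (bd Q B k x) := by
  induction x using Finsupp.induction_linear with
  | zero => simp
  | add x y hx hy => rw [map_add, map_add, hx, hy, map_add, map_add]; abel
  | single τ b =>
    rw [consMap_single, bd_single, bd_single, map_sum, Fin.sum_univ_succ]
    have h0 : (fun i => (Fin.cons z τ : Fin (k + 2) → Q) ((0 : Fin (k + 2)).succAbove i)) = τ := by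
      funext i
      rw [Fin.zero_succAbove, Fin.cons_succ]
    rw [h0]
    have h1 : ∀ p : Fin (k + 1),
        Finsupp.single (fun i => (Fin.cons z τ : Fin (k + 2) → Q) ((p.succ).succAbove i))
          (b * (-1 : B) ^ ((p.succ : Fin (k + 2)) : ℕ)) =
        - consMap B z (Finsupp.single (fun i => τ (p.succAbove i)) (b * (-1 : B) ^ (p : ℕ))) := by
      intro p
      rw [consMap_single, ← Finsupp.single_neg]
      congr 1
      · funext i
        refine Fin.cases ?_ (fun j => ?_) i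
        · rw [Fin.succ_succAbove_zero, Fin.cons_zero, Fin.cons_zero]
        · rw [Fin.succ_succAbove_succ, Fin.cons_succ, Fin.cons_succ]
      · rw [Fin.val_succ, pow_succ]; ring
    rw [Finset.sum_congr rfl fun p _ => h1 p, Finset.sum_neg_distrib]
    simp [sub_eq_add_neg]

/-- The coefficient condition. -/
def FC (f : Q → B) {k : ℕ} (x : (Fin k → Q) →₀ B) : Prop := ∀ τ, (∏ i, f (τ i)) * x τ = x τ

theorem FC.add {f : Q → B} {k : ℕ} {x y : (Fin k → Q) →₀ B} (hx : FC f x) (hy : FC f y) :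
    FC f (x + y) := by
  intro τ
  rw [Finsupp.add_apply, mul_add, hx τ, hy τ]

theorem FC.sub {f : Q → B} {k : ℕ} {x y : (Fin k → Q) →₀ B} (hx : FC f x) (hy : FC f y) :
    FC f (x - y) := by
  intro τ
  rw [Finsupp.sub_apply, mul_sub, hx τ, hy τ]

theorem FC.smul {f : Q → B} {k : ℕ} {x : (Fin k → Q) →₀ B} (hx : FC f x) (b : B) :
    FC f (b • x) := by
  intro τ
  rw [Finsupp.smul_apply, smul_eq_mul, mul_left_comm, hx τ]

theorem FC.consMap {f : Q → B} (hf : ∀ q, f q * f q = f q) {k : ℕ} {x : (Fin k → Q) →₀ B}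
    (hx : FC f x) (z : Q) : FC f (f z • Pool.Agent.FPt.consMap B z x) := by
  classical
  intro σ
  rw [Finsupp.smul_apply, smul_eq_mul]
  by_cases h : ∃ τ : Fin k → Q, (Fin.cons z τ : Fin (k + 1) → Q) = σ
  · obtain ⟨τ, rfl⟩ := h
    have h1 : Pool.Agent.FPt.consMap B z x (Fin.cons z τ : Fin (k + 1) → Q) = x τ := by
      unfold Pool.Agent.FPt.consMap
      rw [Finsupp.lmapDomain_apply]
      exact Finsupp.mapDomain_apply (fun a b hab => by
        have := Fin.cons_right_injective (α := fun _ => Q) z hab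
        exact this) x τ
    rw [h1, Fin.prod_univ_succ]
    simp only [Fin.cons_zero, Fin.cons_succ]
    calc f z * (∏ i, f (τ i)) * (f z * x τ) = (f z * f z) * ((∏ i, f (τ i)) * x τ) := by ring
      _ = f z * x τ := by rw [hf z, hx τ]
  · have h1 : Pool.Agent.FPt.consMap B z x σ = 0 := by
      unfold Pool.Agent.FPt.consMap
      rw [Finsupp.lmapDomain_apply]
      exact Finsupp.mapDomain_notin_range x σ (fun hr => h hr)
    rw [h1]; simp

theorem consMap_support {k : ℕ} (z : Q) (x : (Fin k → Q) →₀ B) (σ : Fin (k + 1) → Q)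
    (h : consMap B z x σ ≠ 0) : ∃ τ, x τ ≠ 0 ∧ (Fin.cons z τ : Fin (k + 1) → Q) = σ := by
  classical
  by_cases h' : ∃ τ : Fin k → Q, (Fin.cons z τ : Fin (k + 1) → Q) = σ
  · obtain ⟨τ, rfl⟩ := h'
    refine ⟨τ, ?_, rfl⟩
    have h1 : consMap B z x (Fin.cons z τ : Fin (k + 1) → Q) = x τ := by
      unfold consMap
      rw [Finsupp.lmapDomain_apply]
      exact Finsupp.mapDomain_apply (fun a b hab => by
        have := Fin.cons_right_injective (α := fun _ => Q) z hab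
        exact this) x τ
    rwa [h1] at h
  · exfalso
    apply h
    unfold consMap
    rw [Finsupp.lmapDomain_apply]
    exact Finsupp.mapDomain_notin_range x σ (fun hr => h' hr)

theorem bd_support {k : ℕ} (x : (Fin (k + 1) → Q) →₀ B) (σ : Fin k → Q)
    (h : bd Q B k x σ ≠ 0) : ∃ τ, x τ ≠ 0 ∧ ∃ p : Fin (k + 1), (fun i => τ (p.succAbove i)) = σ := by
  classical
  by_contra hcon
  apply h
  unfold bd
  rw [Finsupp.linearCombination_apply, Finsupp.sum, Finsupp.finset_sum_apply]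
  refine Finset.sum_eq_zero fun τ hτ => ?_
  rw [Finsupp.smul_apply, Finsupp.finset_sum_apply]
  have : ∀ p : Fin (k + 1),
      (Finsupp.single (fun i => τ (p.succAbove i)) ((-1 : B) ^ (p : ℕ)) : (Fin k → Q) →₀ B) σ = 0 := by
    intro p
    rw [Finsupp.single_apply, if_neg]
    intro he
    exact hcon ⟨τ, Finsupp.mem_support_iff.mp hτ, p, he⟩
  rw [Finset.sum_eq_zero fun p _ => this p, smul_zero]

theorem FC.bd {f : Q → B} (hf : ∀ q, f q * f q = f q) {k : ℕ} {x : (Fin (k + 1) → Q) →₀ B}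
    (hx : FC f x) : FC f (Pool.Agent.FPt.bd Q B k x) := by
  classical
  intro σ
  unfold Pool.Agent.FPt.bd
  rw [Finsupp.linearCombination_apply, Finsupp.sum, Finsupp.finset_sum_apply, Finset.mul_sum]
  refine Finset.sum_congr rfl fun τ hτ => ?_
  rw [Finsupp.smul_apply, Finsupp.finset_sum_apply, smul_eq_mul, Finset.mul_sum, Finset.mul_sum]
  refine Finset.sum_congr rfl fun p _ => ?_
  rw [Finsupp.single_apply]
  split_ifs with he
  · have h1 : (∏ i, f (τ i)) = f (τ p) * ∏ i, f (σ i) := by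
      rw [Fin.prod_univ_succAbove _ p, ← he]
    have h2 : (∏ i, f (σ i)) * (∏ i, f (σ i)) = ∏ i, f (σ i) := by
      rw [← Finset.prod_mul_distrib]
      exact Finset.prod_congr rfl fun i _ => hf _
    have h3 : (∏ i, f (σ i)) * x τ = x τ := by
      calc (∏ i, f (σ i)) * x τ = (∏ i, f (σ i)) * ((∏ i, f (τ i)) * x τ) := by rw [hx τ]
        _ = f (τ p) * ((∏ i, f (σ i)) * (∏ i, f (σ i))) * x τ := by rw [h1]; ring
        _ = (∏ i, f (τ i)) * x τ := by rw [h2, h1]
        _ = x τ := hx τ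
    rw [← mul_assoc, h3]
  · simp

/-- The contracting homotopy with respect to a list of points. -/
noncomputable def hom (f : Q → B) {k : ℕ} : List Q → ((Fin k → Q) →₀ B) →ₗ[B]
    ((Fin (k + 1) → Q) →₀ B)
  | [] => 0
  | z :: l => f z • consMap B z + (1 - f z) • hom f l

/-- The product of the complementary idempotents. -/
noncomputable def cop (f : Q → B) (l : List Q) : B := (l.map fun z => 1 - f z).prod

theorem hom_nil (f : Q → B) {k : ℕ} (x : (Fin k → Q) →₀ B) : hom f [] x = 0 := rfl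

theorem hom_cons (f : Q → B) {k : ℕ} (z : Q) (l : List Q) (x : (Fin k → Q) →₀ B) :
    hom f (z :: l) x = f z • consMap B z x + (1 - f z) • hom f l x := rfl

theorem bd_hom (f : Q → B) {k : ℕ} (l : List Q) (x : (Fin (k + 1) → Q) →₀ B) :
    bd Q B (k + 1) (hom f l x) = (1 - cop f l) • x - hom f l (bd Q B k x) := by
  induction l with
  | nil => simp [hom_nil, cop]
  | cons z l ih =>
    rw [hom_cons, hom_cons, map_add, map_smul, map_smul, ih, bd_consMap]
    have hc : cop f (z :: l) = (1 - f z) * cop f l := by simp [cop]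
    rw [hc]
    module

theorem FC.hom {f : Q → B} (hf : ∀ q, f q * f q = f q) {k : ℕ} {x : (Fin k → Q) →₀ B}
    (hx : FC f x) (l : List Q) : FC f (Pool.Agent.FPt.hom f l x) := by
  induction l with
  | nil => intro τ; simp [hom_nil]
  | cons z l ih =>
    rw [hom_cons]
    exact (hx.consMap hf z).add (ih.smul _)

theorem hom_support (f : Q → B) {k : ℕ} (l : List Q) (x : (Fin k → Q) →₀ B)
    (σ : Fin (k + 1) → Q) (h : hom f l x σ ≠ 0) :
    ∃ z ∈ l, ∃ τ, x τ ≠ 0 ∧ (Fin.cons z τ : Fin (k + 1) → Q) = σ := by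
  induction l with
  | nil => simp [hom_nil] at h
  | cons z l ih =>
    rw [hom_cons, Finsupp.add_apply, Finsupp.smul_apply, Finsupp.smul_apply] at h
    by_cases h1 : consMap B z x σ = 0
    · rw [h1, smul_zero, zero_add] at h
      have h2 : hom f l x σ ≠ 0 := by
        intro h3
        rw [h3, smul_zero] at h
        exact h rfl
      obtain ⟨z', hz', τ, hτ⟩ := ih h2
      exact ⟨z', List.mem_cons_of_mem _ hz', τ, hτ⟩
    · obtain ⟨τ, hτ⟩ := consMap_support z x σ h1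
      exact ⟨z, List.mem_cons_self, τ, hτ⟩

theorem cop_mul_eq_zero (f : Q → B) (hf : ∀ q, f q * f q = f q) (l : List Q) (z : Q)
    (hz : z ∈ l) : cop f l * f z = 0 := by
  induction l with
  | nil => simp at hz
  | cons y l ih =>
    have hc : cop f (y :: l) = (1 - f y) * cop f l := by simp [cop]
    rw [hc]
    rcases List.mem_cons.mp hz with rfl | h
    · calc (1 - f z) * cop f l * f z = cop f l * (f z - f z * f z) := by ring
        _ = 0 := by rw [hf z]; ring
    · rw [mul_assoc, ih h, mul_zero]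

/-- One step of the reduction: remove all tuples whose minimal ball is `(y, ρ)`. -/
theorem step_core (π : Q → E) (hfin : ∀ (c : E) (r : ℝ), {q | ‖π q - c‖ ≤ r}.Finite)
    (f : Q → B) (hf : ∀ q, f q * f q = f q) (m : ℕ)
    (ρ : ℝ) (y : E)
    (hyp : ∀ (n : ℕ) (τ : Fin n → Q), n ≤ m →
      (∀ i, ‖π (τ i) - y‖ = ρ) → y ∈ convexHull ℝ (Set.range fun i => π (τ i)) →
      ∀ Z : Finset Q, (∀ z, z ∈ Z ↔ ‖π z - y‖ < ρ) →
        (∏ i, f (τ i)) * ∏ z ∈ Z, (1 - f z) = 0)
    (R : ℝ) (hR : R < ρ) (n : ℕ) (hn : n + 2 ≤ m) (v : (Fin (n + 1) → Q) →₀ B)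
    (hv : IsM π f R v) (w : (Fin (n + 2) → Q) →₀ B) (hw : IsM π f ρ w)
    (hbd : bd Q B (n + 1) w = v) :
    ∃ w' : (Fin (n + 2) → Q) →₀ B, IsM π f ρ w' ∧ bd Q B (n + 1) w' = v ∧
      (∀ τ c, w' τ ≠ 0 → MB (Set.range fun i => π (τ i)) c ρ →
        w τ ≠ 0 ∧ ¬ MB (Set.range fun i => π (τ i)) y ρ) := by
  classical
  -- the part of `w` with ball `(y, ρ)`
  let wy : (Fin (n + 2) → Q) →₀ B :=
    w.filter fun τ => MB (Set.range fun i => π (τ i)) y ρ
  have hwy_apply : ∀ τ, wy τ = if MB (Set.range fun i => π (τ i)) y ρ then w τ else 0 := by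
    intro τ
    exact Finsupp.filter_apply _ _ _
  have hFCw : FC f w := fun τ => (hw τ).1
  have hFCwy : FC f wy := by
    intro τ
    rw [hwy_apply]
    split_ifs with h
    · exact hFCw τ
    · simp
  -- interior points
  have hZfin : {q : Q | ‖π q - y‖ < ρ}.Finite := (hfin y ρ).subset fun q hq => by
    have hq' : ‖π q - y‖ < ρ := hq
    exact hq'.le
  let Z : Finset Q := hZfin.toFinset
  have hZ : ∀ z, z ∈ Z ↔ ‖π z - y‖ < ρ := fun z => by simp [Z]
  let l : List Q := Z.toList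
  have hl : ∀ z, z ∈ l ↔ ‖π z - y‖ < ρ := fun z => by rw [← hZ z]; exact Finset.mem_toList
  have hcop : cop f l = ∏ z ∈ Z, (1 - f z) := by
    unfold cop
    exact Finset.prod_map_toList Z (fun z => 1 - f z)
  have hkill : cop f l • wy = 0 := by
    ext τ
    rw [Finsupp.smul_apply, smul_eq_mul, Finsupp.zero_apply, hwy_apply]
    split_ifs with h
    · by_cases hin : ∃ i, ‖π (τ i) - y‖ < ρ
      · obtain ⟨i, hi⟩ := hin
        have h0 := cop_mul_eq_zero f hf l (τ i) ((hl _).mpr hi)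
        have h1 := hFCw τ
        rw [← h1, Fin.prod_univ_succAbove _ i]
        calc cop f l * (f (τ i) * (∏ j, f (τ (i.succAbove j))) * w τ)
            = (cop f l * f (τ i)) * ((∏ j, f (τ (i.succAbove j))) * w τ) := by ring
          _ = 0 := by rw [h0, zero_mul]
      · have hin' : ∀ i, ρ ≤ ‖π (τ i) - y‖ := fun i => not_lt.mp fun hi => hin ⟨i, hi⟩
        have hs : ∀ i, ‖π (τ i) - y‖ = ρ := fun i =>
          le_antisymm (h.1 _ ⟨i, rfl⟩) (hin' i)
        have hset : {p ∈ Set.range fun i => π (τ i) | ‖p - y‖ = ρ} =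
            Set.range fun i => π (τ i) := by
          ext p
          constructor
          · rintro ⟨hp, _⟩; exact hp
          · rintro ⟨i, rfl⟩; exact ⟨⟨i, rfl⟩, hs i⟩
        have h2 := h.2
        rw [hset] at h2
        have h3 := hyp (n + 2) τ hn hs h2 Z hZ
        have h1 := hFCw τ
        rw [← h1, hcop]
        calc (∏ z ∈ Z, (1 - f z)) * ((∏ i, f (τ i)) * w τ)
            = ((∏ i, f (τ i)) * ∏ z ∈ Z, (1 - f z)) * w τ := by ring
          _ = 0 := by rw [h3, zero_mul]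
    · simp
  -- faces
  have hface : ∀ (τ : Fin (n + 2) → Q) (p : Fin (n + 2)),
      (Set.range fun i => π (τ (p.succAbove i))) ⊆ Set.range fun i => π (τ i) := by
    rintro τ p _ ⟨i, rfl⟩
    exact ⟨_, rfl⟩
  let u : (Fin (n + 1) → Q) →₀ B := bd Q B (n + 1) wy
  have hu_supp : ∀ σ, u σ ≠ 0 → ∃ (τ : Fin (n + 2) → Q) (p : Fin (n + 2)),
      MB (Set.range fun i => π (τ i)) y ρ ∧ (fun i => τ (p.succAbove i)) = σ := by
    intro σ hσ
    obtain ⟨τ, hτ, p, hp⟩ := bd_support wy σ hσ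
    rw [hwy_apply] at hτ
    split_ifs at hτ with h
    · exact ⟨τ, p, h, hp⟩
    · exact absurd rfl hτ
  have hu_lt : ∀ σ, u σ ≠ 0 → ∃ c₁ r₁, MB (Set.range fun i => π (σ i)) c₁ r₁ ∧ r₁ < ρ := by
    intro σ hσ
    obtain ⟨τ, p, hτ, hp⟩ := hu_supp σ hσ
    have hsub : (Set.range fun i => π (σ i)) ⊆ Set.range fun i => π (τ i) := by
      rw [← hp]; exact hface τ p
    obtain ⟨c₁, r₁, h1⟩ := exists_MB (Set.range fun i => π (σ i)) (Set.finite_range _)
      ⟨_, ⟨0, rfl⟩⟩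
    refine ⟨c₁, r₁, h1, lt_of_le_of_ne (h1.mono hτ hsub) ?_⟩
    rintro rfl
    have hc : c₁ = y := h1.center_eq hτ hsub
    subst hc
    -- the coefficient agrees with the one of `v`, which vanishes
    have hsame : u σ = v σ := by
      have h2 : bd Q B (n + 1) (w - wy) σ = 0 := by
        by_contra hne
        obtain ⟨τ', hτ', p', hp'⟩ := bd_support (w - wy) σ hne
        rw [Finsupp.sub_apply, hwy_apply] at hτ'
        split_ifs at hτ' with h
        · exact hτ' (sub_self _)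
        · rw [sub_zero] at hτ'
          obtain ⟨c', r', h3, h4⟩ := (hw τ').2 hτ'
          have hsub' : (Set.range fun i => π (σ i)) ⊆ Set.range fun i => π (τ' i) := by
            rw [← hp']; exact hface τ' p'
          have h5 : r₁ = r' := le_antisymm (h1.mono h3 hsub') h4
          subst h5
          have h6 := h1.center_eq h3 hsub'
          subst h6
          exact h h3
      rw [map_sub, Finsupp.sub_apply, hbd] at h2
      exact (sub_eq_zero.mp h2).symm
    rw [hsame] at hσ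
    obtain ⟨c', r', h3, h4⟩ := (hv σ).2 hσ
    have := (h1.unique h3).2
    linarith
  have hFCu : FC f u := hFCwy.bd hf
  have hhu_lt : ∀ τ, hom f l u τ ≠ 0 →
      ∃ c r, MB (Set.range fun i => π (τ i)) c r ∧ r < ρ := by
    intro τ hτ
    obtain ⟨z, hz, σ, hσ, hcons⟩ := hom_support f l u τ hτ
    obtain ⟨c₁, r₁, h1, h2⟩ := hu_lt σ hσ
    obtain ⟨τ', p, hτ', hp⟩ := hu_supp σ hσ
    obtain ⟨c', r', h3⟩ := exists_MB (insert (π z) (Set.range fun i => π (σ i)))
      ((Set.finite_range _).insert _) ⟨_, Set.mem_insert _ _⟩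
    have hs : ∀ q ∈ (Set.range fun i => π (σ i)), ‖q - y‖ ≤ ρ := by
      rintro _ ⟨i, rfl⟩
      exact hτ'.1 _ ⟨p.succAbove i, by rw [← hp]⟩
    have h4 := h1.insert_point_lt hs h2 ((hl z).mp hz) h3
    have hset : (Set.range fun i => π (τ i)) = insert (π z) (Set.range fun i => π (σ i)) := by
      rw [← hcons]
      ext q
      constructor
      · rintro ⟨i, rfl⟩
        refine Fin.cases ?_ (fun j => ?_) i
        · left; simp
        · right; exact ⟨j, by simp⟩
      · rintro (rfl | ⟨j, rfl⟩)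
        · exact ⟨0, by simp⟩
        · exact ⟨j.succ, by simp⟩
    exact ⟨c', r', by rw [hset]; exact h3, h4⟩
  -- the new chain
  have hbh : bd Q B (n + 2) (hom f l wy) = wy - hom f l u := by
    rw [bd_hom, sub_smul, one_smul, hkill, sub_zero]
  refine ⟨w - bd Q B (n + 2) (hom f l wy), ?_, ?_, ?_⟩
  · intro τ
    refine ⟨(hFCw.sub ((hFCwy.hom hf l).bd hf)) τ, fun hne => ?_⟩
    rw [hbh, Finsupp.sub_apply, Finsupp.sub_apply] at hne
    by_cases h1 : hom f l u τ = 0
    · rw [h1, sub_zero] at hne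
      refine (hw τ).2 fun h0 => hne ?_
      rw [hwy_apply, h0]; simp
    · obtain ⟨c, r, h2, h3⟩ := hhu_lt τ h1
      exact ⟨c, r, h2, h3.le⟩
  · rw [map_sub, bd_bd, sub_zero, hbd]
  · intro τ c hne hmb
    rw [hbh, Finsupp.sub_apply, Finsupp.sub_apply] at hne
    have h1 : hom f l u τ = 0 := by
      by_contra h1
      obtain ⟨c', r', h2, h3⟩ := hhu_lt τ h1
      have := (hmb.unique h2).2
      linarith
    rw [h1, sub_zero, hwy_apply] at hne
    split_ifs at hne with h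
    · exact absurd (sub_self _) hne
    · rw [sub_zero] at hne
      exact ⟨hne, h⟩

/-- Remove all tuples of radius exactly `ρ`. -/
theorem level_core (π : Q → E) (hfin : ∀ (c : E) (r : ℝ), {q | ‖π q - c‖ ≤ r}.Finite)
    (f : Q → B) (hf : ∀ q, f q * f q = f q) (m : ℕ)
    (ρ : ℝ)
    (hyp : ∀ (y : E) (n : ℕ) (τ : Fin n → Q), n ≤ m →
      (∀ i, ‖π (τ i) - y‖ = ρ) → y ∈ convexHull ℝ (Set.range fun i => π (τ i)) →
      ∀ Z : Finset Q, (∀ z, z ∈ Z ↔ ‖π z - y‖ < ρ) →
        (∏ i, f (τ i)) * ∏ z ∈ Z, (1 - f z) = 0)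
    (R : ℝ) (hR : R < ρ) (n : ℕ) (hn : n + 2 ≤ m) (v : (Fin (n + 1) → Q) →₀ B)
    (hv : IsM π f R v) (N : ℕ) : ∀ (w : (Fin (n + 2) → Q) →₀ B), IsM π f ρ w →
    bd Q B (n + 1) w = v →
    ({τ | w τ ≠ 0 ∧ ∃ c, MB (Set.range fun i => π (τ i)) c ρ} : Set (Fin (n + 2) → Q)).ncard ≤ N →
    ∃ w' : (Fin (n + 2) → Q) →₀ B, IsM π f ρ w' ∧ bd Q B (n + 1) w' = v ∧
      (∀ τ c, w' τ ≠ 0 → ¬ MB (Set.range fun i => π (τ i)) c ρ) := by
  classical
  have hfinS : ∀ w : (Fin (n + 2) → Q) →₀ B,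
      ({τ | w τ ≠ 0 ∧ ∃ c, MB (Set.range fun i => π (τ i)) c ρ} :
        Set (Fin (n + 2) → Q)).Finite := by
    intro w
    refine w.support.finite_toSet.subset fun τ hτ => ?_
    exact Finset.mem_coe.mpr (Finsupp.mem_support_iff.mpr hτ.1)
  induction N with
  | zero =>
    intro w hw hbd hN
    refine ⟨w, hw, hbd, fun τ c hne hmb => ?_⟩
    have h0 := (Set.ncard_eq_zero (hfinS w)).mp (Nat.le_zero.mp hN)
    have : τ ∈ ({τ | w τ ≠ 0 ∧ ∃ c, MB (Set.range fun i => π (τ i)) c ρ} :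
        Set (Fin (n + 2) → Q)) := ⟨hne, c, hmb⟩
    rw [h0] at this
    exact this
  | succ N ih =>
    intro w hw hbd hN
    by_cases hemp : ∃ τ₀, w τ₀ ≠ 0 ∧ ∃ c, MB (Set.range fun i => π (τ₀ i)) c ρ
    · obtain ⟨τ₀, h0, y, hy⟩ := hemp
      obtain ⟨w', h1, h2, h3⟩ := step_core π hfin f hf m ρ y (hyp y) R hR n hn v hv w hw hbd
      refine ih w' h1 h2 ?_
      have hss : ({τ | w' τ ≠ 0 ∧ ∃ c, MB (Set.range fun i => π (τ i)) c ρ} :
          Set (Fin (n + 2) → Q)) ⊂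
          {τ | w τ ≠ 0 ∧ ∃ c, MB (Set.range fun i => π (τ i)) c ρ} := by
        refine ⟨?_, ?_⟩
        · rintro τ ⟨hne, c, hmb⟩
          exact ⟨(h3 τ c hne hmb).1, c, hmb⟩
        · intro hcon
          obtain ⟨hne, c, hmb⟩ := hcon (show τ₀ ∈ _ from ⟨h0, y, hy⟩)
          exact (h3 τ₀ c hne hmb).2 hy
      have := Set.ncard_lt_ncard hss (hfinS w)
      omega
    · refine ⟨w, hw, hbd, fun τ c hne hmb => hemp ⟨τ, hne, c, hmb⟩⟩

/-- Descent along a finite set of reals. -/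
theorem descent (F : Set ℝ) (hF : F.Finite) (R : ℝ) (P : ℝ → Prop) (hRF : R ∈ F)
    (hge : ∀ r ∈ F, R ≤ r) (hex : ∃ r ∈ F, P r)
    (hstep : ∀ ρ ∈ F, R < ρ → P ρ → (∀ ρ' ∈ F, ρ' < ρ → (∀ r ∈ F, r < ρ → r ≤ ρ') → P ρ')) :
    P R := by
  classical
  obtain ⟨r0, hr0, hP0⟩ := hex
  have hS : ({r | r ∈ F ∧ P r} : Set ℝ).Finite := hF.subset fun r hr => hr.1
  obtain ⟨ρ, hρ, hmin⟩ := Set.exists_min_image _ id hS ⟨r0, hr0, hP0⟩
  by_cases h : ρ = R
  · rw [← h]; exact hρ.2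
  · exfalso
    have hlt : R < ρ := lt_of_le_of_ne (hge ρ hρ.1) (Ne.symm h)
    have hS' : ({r | r ∈ F ∧ r < ρ} : Set ℝ).Finite := hF.subset fun r hr => hr.1
    obtain ⟨ρ', hρ', hmax⟩ := Set.exists_max_image _ id hS' ⟨R, hRF, hlt⟩
    have := hstep ρ hρ.1 hlt hρ.2 ρ' hρ'.1 hρ'.2 (fun r hr hrρ => hmax r ⟨hr, hrρ⟩)
    have h2 := hmin ρ' ⟨hρ'.1, this⟩
    exact absurd hρ'.2 (not_lt.mpr h2)

theorem exact_core (π : Q → E) (hfin : ∀ (c : E) (r : ℝ), {q | ‖π q - c‖ ≤ r}.Finite)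
    (hdisc : ∀ (R : ℝ) (n : ℕ),
      {r : ℝ | r ≤ R ∧ ∃ (τ : Fin n → Q) (c : E), MB (Set.range fun i => π (τ i)) c r}.Finite)
    (f : Q → B) (hf : ∀ q, f q * f q = f q) (m : ℕ) (R0 : ℝ)
    (hyp : ∀ (c : E) (ρ : ℝ), R0 < ρ → ∀ (n : ℕ) (τ : Fin n → Q), n ≤ m →
      (∀ i, ‖π (τ i) - c‖ = ρ) → c ∈ convexHull ℝ (Set.range fun i => π (τ i)) →
      ∀ Z : Finset Q, (∀ z, z ∈ Z ↔ ‖π z - c‖ < ρ) →
        (∏ i, f (τ i)) * ∏ z ∈ Z, (1 - f z) = 0)
    (R : ℝ) (hR : R0 ≤ R) (n : ℕ) (hn : n + 2 ≤ m) (v : (Fin (n + 1) → Q) →₀ B)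
    (hv : IsM π f R v) (hd : bd Q B n v = 0) :
    ∃ w : (Fin (n + 2) → Q) →₀ B, IsM π f R w ∧ bd Q B (n + 1) w = v := by
  classical
  have hFCv : FC f v := fun τ => (hv τ).1
  -- step A
  let l : List Q := (v.support.biUnion fun τ => Finset.univ.image τ).toList
  have hl : ∀ τ, v τ ≠ 0 → ∀ i, τ i ∈ l := by
    intro τ hτ i
    rw [Finset.mem_toList, Finset.mem_biUnion]
    exact ⟨τ, Finsupp.mem_support_iff.mpr hτ, Finset.mem_image.mpr ⟨i, Finset.mem_univ _, rfl⟩⟩
  have hkill : cop f l • v = 0 := by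
    ext τ
    rw [Finsupp.smul_apply, smul_eq_mul, Finsupp.zero_apply]
    by_cases h : v τ = 0
    · rw [h, mul_zero]
    · have h0 := cop_mul_eq_zero f hf l (τ 0) (hl τ h 0)
      rw [← hFCv τ, Fin.prod_univ_succ]
      calc cop f l * (f (τ 0) * (∏ j : Fin n, f (τ j.succ)) * v τ)
          = (cop f l * f (τ 0)) * ((∏ j : Fin n, f (τ j.succ)) * v τ) := by ring
        _ = 0 := by rw [h0, zero_mul]
  have hw0 : bd Q B (n + 1) (hom f l v) = v := by
    rw [bd_hom, hd, map_zero, sub_zero, sub_smul, one_smul, hkill, sub_zero]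
  have hFC0 : FC f (hom f l v) := hFCv.hom hf l
  -- a bound for the radii
  have hball : ∀ τ : Fin (n + 2) → Q, ∃ r, ∃ c, MB (Set.range fun i => π (τ i)) c r := by
    intro τ
    obtain ⟨c, r, h⟩ := exists_MB (Set.range fun i => π (τ i)) (Set.finite_range _)
      ⟨_, ⟨0, rfl⟩⟩
    exact ⟨r, c, h⟩
  choose rad cen hrad using hball
  obtain ⟨R1, hR1, hR1'⟩ : ∃ R1, R ≤ R1 ∧ ∀ τ, hom f l v τ ≠ 0 → rad τ ≤ R1 := by
    obtain ⟨M, hM⟩ := ((hom f l v).support.image rad).bddAbove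
    refine ⟨max R M, le_max_left _ _, fun τ hτ => le_trans (hM ?_) (le_max_right _ _)⟩
    exact Finset.mem_coe.mpr (Finset.mem_image.mpr ⟨τ, Finsupp.mem_support_iff.mpr hτ, rfl⟩)
  -- the finite set of radii
  let T : Set ℝ := {r : ℝ | R < r ∧ r ≤ R1 ∧
    ∃ (τ : Fin (n + 2) → Q) (c : E), MB (Set.range fun i => π (τ i)) c r}
  have hT : T.Finite := (hdisc R1 (n + 2)).subset fun r hr => hr.2
  let F : Set ℝ := insert R T
  have hF : F.Finite := hT.insert R
  let P : ℝ → Prop := fun ρ => ∃ w : (Fin (n + 2) → Q) →₀ B, IsM π f ρ w ∧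
    bd Q B (n + 1) w = v
  have hPbound : ∀ (w : (Fin (n + 2) → Q) →₀ B), FC f w →
      (∀ τ, w τ ≠ 0 → rad τ ≤ R1) → ∀ ρ', R ≤ ρ' → (∀ τ, w τ ≠ 0 → rad τ ∈ T → rad τ ≤ ρ') →
      IsM π f ρ' w := by
    intro w hFC hb ρ' hρ' hle τ
    refine ⟨hFC τ, fun hne => ⟨cen τ, rad τ, hrad τ, ?_⟩⟩
    by_cases h : R < rad τ
    · exact hle τ hne ⟨h, hb τ hne, τ, cen τ, hrad τ⟩
    · linarith
  have hRadLe : ∀ (τ : Fin (n + 2) → Q) (ρ : ℝ), RadLe π τ ρ → rad τ ≤ ρ := by
    rintro τ ρ ⟨c, r, h1, h2⟩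
    rw [((hrad τ).unique h1).2]
    exact h2
  have hFle : ∀ r ∈ F, r ≤ R1 := by
    rintro r (rfl | hr)
    · exact hR1
    · exact hr.2.1
  refine descent F hF R P (Set.mem_insert _ _) ?_ ?_ ?_
  · rintro r (rfl | hr)
    · exact le_refl _
    · exact hr.1.le
  · obtain ⟨ρ, hρ, hmax⟩ := Set.exists_max_image F id hF ⟨R, Set.mem_insert _ _⟩
    refine ⟨ρ, hρ, hom f l v, ?_, hw0⟩
    refine hPbound _ hFC0 hR1' ρ (hmax R (Set.mem_insert _ _)) fun τ _ hτ => ?_
    exact hmax _ (Set.mem_insert_of_mem _ hτ)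
  · intro ρ hρ hRρ hP ρ' hρ' hlt hbig
    obtain ⟨w, hw, hbd⟩ := hP
    obtain ⟨w', h1, h2, h3⟩ := level_core π hfin f hf m ρ
      (fun y => hyp y ρ (lt_of_le_of_lt hR hRρ)) R hRρ n hn v hv _ w hw hbd le_rfl
    refine ⟨w', ?_, h2⟩
    have hRρ' : R ≤ ρ' := hbig R (Set.mem_insert _ _) hRρ
    refine hPbound w' (fun τ => (h1 τ).1) (fun τ hne => ?_) ρ' hRρ' (fun τ hne hτ => ?_)
    · exact le_trans (hRadLe τ ρ ((h1 τ).2 hne)) (hFle ρ hρ)
    · refine hbig _ (Set.mem_insert_of_mem _ hτ) ?_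
      refine lt_of_le_of_ne (hRadLe τ ρ ((h1 τ).2 hne)) ?_
      intro he
      refine h3 τ (cen τ) hne ?_
      rw [← he]
      exact hrad τ

end C

end Pool.Agent.FPt
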