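import Pool.Agent.Lib.MP_f973c6_al.IfHalf.E3
import Pool.Agent.Lib.MP_f973c6_al.IfHalf.PartA
import Pool.Agent.Lib.MP_f973c6_al.IfHalf.PartC

/-! The chain modules are of type FP over the group algebra of the semidirect product. -/

set_option autoImplicit false
set_option linter.all false

namespace Pool.Agent.FPt

variable {k A Q : Type} [CommRing k] [CommGroup A] [CommGroup Q]

/-- An equivariant map as a linear map over the group algebra. -/
noncomputable def toL (φ : Q →* MulAut A) {n m : ℕ} (T : CC k A Q n →ₗ[k] CC k A Q m)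
    (hT : ∀ g v, T (act φ n g v) = act φ m g (T v)) :
    CC k A Q n →ₗ[MonoidAlgebra k (A ⋊[φ] Q)] CC k A Q m where
  toFun := T
  map_add' := map_add T
  map_smul' := equivariant_linear φ T hT

theorem toL_apply (φ : Q →* MulAut A) {n m : ℕ} (T : CC k A Q n →ₗ[k] CC k A Q m)
    (hT : ∀ g v, T (act φ n g v) = act φ m g (T v)) (v : CC k A Q n) : toL φ T hT v = T v := rfl

/-- Projection onto the coefficient ideals. -/
noncomputable def prj (f : Q → MonoidAlgebra k A) (n : ℕ) : CC k A Q n →ₗ[k] CC k A Q n :=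
  (Finsupp.linearCombination (MonoidAlgebra k A)
    (fun τ : Fin n → Q => (Finsupp.single τ (∏ i, f (τ i)) : CC k A Q n))).restrictScalars k

theorem prj_sg (f : Q → MonoidAlgebra k A) (n : ℕ) (τ : Fin n → Q) (b : MonoidAlgebra k A) :
    prj f n (sg τ b) = sg τ ((∏ i, f (τ i)) * b) := by
  unfold prj
  change Finsupp.linearCombination (MonoidAlgebra k A) _ (Finsupp.single τ b) = _
  rw [Finsupp.linearCombination_single, Finsupp.smul_single, smul_eq_mul, mul_comm]

theorem prj_apply (f : Q → MonoidAlgebra k A) (n : ℕ) (v : CC k A Q n) (τ : Fin n → Q) :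
    prj f n v τ = (∏ i, f (τ i)) * v τ := by
  classical
  induction v using CC_induction with
  | h0 => simp
  | ha x y hx hy => rw [map_add, Finsupp.add_apply, hx, hy, Finsupp.add_apply, mul_add]
  | hs σ b =>
    rw [prj_sg]
    simp only [sg]
    rw [Finsupp.single_apply, Finsupp.single_apply]
    split_ifs with h
    · rw [h]
    · rw [mul_zero]

theorem prj_act (φ : Q →* MulAut A) (f : Q → MonoidAlgebra k A)
    (hf : ∀ p q, al k φ p (f q) = f (p * q)) (n : ℕ) (g : A ⋊[φ] Q) (v : CC k A Q n) :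
    prj f n (act φ n g v) = act φ n g (prj f n v) := by
  induction v using CC_induction with
  | h0 => simp
  | ha x y hx hy => rw [map_add, map_add, hx, hy, map_add, map_add]
  | hs σ b =>
    rw [act_sg, prj_sg, prj_sg, act_sg, bt_mul_coeff, map_prod]
    congr 2
    exact Finset.prod_congr rfl (fun i _ => by rw [hf]; rfl)

theorem bd_act (φ : Q →* MulAut A) (n : ℕ) (g : A ⋊[φ] Q) (v : CC k A Q (n + 1)) :
    bd Q (MonoidAlgebra k A) n (act φ (n + 1) g v) = act φ n g (bd Q (MonoidAlgebra k A) n v) := by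
  induction v using CC_induction with
  | h0 => simp
  | ha x y hx hy => rw [map_add, map_add, hx, hy, map_add, map_add]
  | hs σ b =>
    rw [act_sg]
    simp only [sg]
    rw [bd_single, bd_single, map_sum]
    refine Finset.sum_congr rfl (fun p _ => ?_)
    have h := act_sg (k := k) φ g (fun i => σ (p.succAbove i)) (b * (-1) ^ (p : ℕ))
    simp only [sg] at h
    rw [h]
    have h2 : bt k φ g (b * (-1) ^ (p : ℕ)) = bt k φ g b * (-1) ^ (p : ℕ) := by
      rcases Nat.even_or_odd (p : ℕ) with h3 | h3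
      · rw [h3.neg_one_pow, mul_one, mul_one]
      · rw [h3.neg_one_pow, mul_neg, mul_one, mul_neg, mul_one, map_neg]
    rw [h2]
    rfl

/-- The boundary map over the group algebra. -/
noncomputable def bdL (k : Type) [CommRing k] (φ : Q →* MulAut A) (n : ℕ) :
    CC k A Q (n + 1) →ₗ[MonoidAlgebra k (A ⋊[φ] Q)] CC k A Q n :=
  toL φ ((bd Q (MonoidAlgebra k A) n).restrictScalars k) (fun g v => bd_act φ n g v)

theorem bdL_apply (φ : Q →* MulAut A) (n : ℕ) (v : CC k A Q (n + 1)) :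
    bdL k φ n v = bd Q (MonoidAlgebra k A) n v := rfl

/-- The projection over the group algebra. -/
noncomputable def prjL (φ : Q →* MulAut A) (f : Q → MonoidAlgebra k A)
    (hf : ∀ p q, al k φ p (f q) = f (p * q)) (n : ℕ) :
    CC k A Q n →ₗ[MonoidAlgebra k (A ⋊[φ] Q)] CC k A Q n :=
  toL φ (prj f n) (fun g v => prj_act φ f hf n g v)

theorem prjL_apply (φ : Q →* MulAut A) (f : Q → MonoidAlgebra k A)
    (hf : ∀ p q, al k φ p (f q) = f (p * q)) (n : ℕ) (v : CC k A Q n) (τ : Fin n → Q) :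
    prjL φ f hf n v τ = (∏ i, f (τ i)) * v τ := prj_apply f n v τ

variable {E : Type} [NormedAddCommGroup E] [InnerProductSpace ℝ E]

theorem MS_one_FPn (φ : Q →* MulAut A) (π : Q → E) (hπ : ∀ p q, π (p * q) = π p + π q)
    (hfin : ∀ (c : E) (r : ℝ), {q | ‖π q - c‖ ≤ r}.Finite) (R : ℝ) (n : ℕ) :
    Module.Finite (MonoidAlgebra k (A ⋊[φ] Q))
      (MS φ π hπ (fun _ => (1 : MonoidAlgebra k A)) (fun p q => map_one _) R (n + 1)) ∧
    Module.Projective (MonoidAlgebra k (A ⋊[φ] Q))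
      (MS φ π hπ (fun _ => (1 : MonoidAlgebra k A)) (fun p q => map_one _) R (n + 1)) := by
  haveI := TT_finite π hfin R n
  let e1 := LinearEquiv.ofInjective (Ph k φ π R n) (Ph_injective φ π R n)
  let e2 := LinearEquiv.ofEq _ _ (Ph_range (k := k) φ π hπ R n)
  let e := e1.trans e2
  exact ⟨Module.Finite.equiv e, Module.Projective.of_equiv e⟩

theorem MS_FPn (φ : Q →* MulAut A) (π : Q → E) (hπ : ∀ p q, π (p * q) = π p + π q)
    (hfin : ∀ (c : E) (r : ℝ), {q | ‖π q - c‖ ≤ r}.Finite)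
    (f : Q → MonoidAlgebra k A) (hf : ∀ p q, al k φ p (f q) = f (p * q))
    (hid : ∀ q, f q * f q = f q) (R : ℝ) (n l : ℕ) :
    FPn (MonoidAlgebra k (A ⋊[φ] Q)) l (MS φ π hπ f hf R (n + 1)) := by
  obtain ⟨h1, h2⟩ := MS_one_FPn (k := k) φ π hπ hfin R n
  have hidp : ∀ τ : Fin (n + 1) → Q, (∏ i, f (τ i)) * (∏ i, f (τ i)) = ∏ i, f (τ i) := by
    intro τ
    rw [← Finset.prod_mul_distrib]
    exact Finset.prod_congr rfl (fun i _ => hid _)
  let s : MS φ π hπ (fun _ => (1 : MonoidAlgebra k A)) (fun p q => map_one _) R (n + 1)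
      →ₗ[MonoidAlgebra k (A ⋊[φ] Q)] MS φ π hπ f hf R (n + 1) :=
    (prjL φ f hf (n + 1)).restrict (by
      intro v hv
      rw [mem_MS] at hv ⊢
      intro τ
      rw [prjL_apply]
      refine ⟨by rw [← mul_assoc, hidp], fun h => (hv τ).2 (fun h' => h ?_)⟩
      rw [h', mul_zero])
  let i : MS φ π hπ f hf R (n + 1) →ₗ[MonoidAlgebra k (A ⋊[φ] Q)]
      MS φ π hπ (fun _ => (1 : MonoidAlgebra k A)) (fun p q => map_one _) R (n + 1) :=
    Submodule.inclusion (fun v hv => of_mem_MS_one (φ := φ) hv)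
  have hsi : s.comp i = LinearMap.id := by
    apply LinearMap.ext
    intro v
    apply Subtype.ext
    apply Finsupp.ext
    intro τ
    change prjL φ f hf (n + 1) v.1 τ = v.1 τ
    rw [prjL_apply]
    exact (v.2 τ).1
  haveI : Module.Finite (MonoidAlgebra k (A ⋊[φ] Q)) (MS φ π hπ f hf R (n + 1)) :=
    Module.Finite.of_surjective s (fun v => ⟨i v, LinearMap.congr_fun hsi v⟩)
  haveI : Module.Projective (MonoidAlgebra k (A ⋊[φ] Q)) (MS φ π hπ f hf R (n + 1)) :=
    Module.Projective.of_split i s hsi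
  exact FPn.proj l _

theorem RadLe_face (π : Q → E) {n : ℕ} (τ : Fin (n + 2) → Q) (p : Fin (n + 2)) (R : ℝ)
    (h : RadLe π τ R) : RadLe π (fun i => τ (p.succAbove i)) R := by
  obtain ⟨c, r, h, hr⟩ := h
  obtain ⟨c', r', h'⟩ := exists_MB (Set.range fun i : Fin (n + 1) => π (τ (p.succAbove i)))
    (Set.finite_range _) (Set.range_nonempty _)
  refine ⟨c', r', h', le_trans (h'.mono h ?_) hr⟩
  rintro x ⟨i, rfl⟩
  exact ⟨p.succAbove i, rfl⟩

theorem IsM_bd (π : Q → E) (f : Q → MonoidAlgebra k A) (hid : ∀ q, f q * f q = f q) (R : ℝ)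
    (n : ℕ) (v : CC k A Q (n + 2)) (hv : IsM π f R v) :
    IsM π f R (bd Q (MonoidAlgebra k A) (n + 1) v) := by
  intro τ
  refine ⟨FC.bd hid (x := v) (fun τ => (hv τ).1) τ, fun h => ?_⟩
  obtain ⟨σ, h1, p, h2⟩ := bd_support v τ h
  rw [← h2]
  exact RadLe_face π σ p R ((hv σ).2 h1)

/-- The module of cycles. -/
noncomputable def KM (φ : Q →* MulAut A) (π : Q → E) (hπ : ∀ p q, π (p * q) = π p + π q)
    (f : Q → MonoidAlgebra k A) (hf : ∀ p q, al k φ p (f q) = f (p * q)) (R : ℝ) (n : ℕ) :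
    Submodule (MonoidAlgebra k (A ⋊[φ] Q)) (CC k A Q (n + 1)) :=
  MS φ π hπ f hf R (n + 1) ⊓ LinearMap.ker (bdL k φ n)

theorem KM_FPn (φ : Q →* MulAut A) (π : Q → E) (hπ : ∀ p q, π (p * q) = π p + π q)
    (hfin : ∀ (c : E) (r : ℝ), {q | ‖π q - c‖ ≤ r}.Finite)
    (f : Q → MonoidAlgebra k A) (hf : ∀ p q, al k φ p (f q) = f (p * q))
    (hid : ∀ q, f q * f q = f q) (R : ℝ) (m : ℕ)
    (hex : ∀ n : ℕ, n + 2 ≤ m → ∀ v : CC k A Q (n + 1), IsM π f R v →
      bd Q (MonoidAlgebra k A) n v = 0 →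
      ∃ w : CC k A Q (n + 2), IsM π f R w ∧ bd Q (MonoidAlgebra k A) (n + 1) w = v)
    (l : ℕ) : ∀ n : ℕ, n + 2 + l ≤ m →
      FPn (MonoidAlgebra k (A ⋊[φ] Q)) l (KM φ π hπ f hf R n) := by
  have key : ∀ n : ℕ, n + 2 ≤ m → ∃ g : MS φ π hπ f hf R (n + 2)
      →ₗ[MonoidAlgebra k (A ⋊[φ] Q)] KM φ π hπ f hf R n, Function.Surjective g ∧
      Nonempty (KM φ π hπ f hf R (n + 1) ≃ₗ[MonoidAlgebra k (A ⋊[φ] Q)] LinearMap.ker g) := by
    intro n hn
    let g : MS φ π hπ f hf R (n + 2) →ₗ[MonoidAlgebra k (A ⋊[φ] Q)] KM φ π hπ f hf R n :=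
      (bdL k φ (n + 1)).restrict (by
        intro v hv
        refine ⟨IsM_bd π f hid R n v hv, ?_⟩
        change bdL k φ n (bdL k φ (n + 1) v) = 0
        rw [bdL_apply, bdL_apply, bd_bd])
    refine ⟨g, ?_, ⟨?_⟩⟩
    · rintro ⟨v, hv1, hv2⟩
      obtain ⟨w, hw1, hw2⟩ := hex n hn v hv1 hv2
      exact ⟨⟨w, hw1⟩, Subtype.ext hw2⟩
    · exact
        { toFun := fun x => ⟨⟨x.1, x.2.1⟩, by
            rw [LinearMap.mem_ker]; exact Subtype.ext x.2.2⟩
          map_add' := fun x y => rfl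
          map_smul' := fun r x => rfl
          invFun := fun y => ⟨y.1.1, y.1.2, by
            have := y.2
            rw [LinearMap.mem_ker] at this
            exact congrArg Subtype.val this⟩
          left_inv := fun x => rfl
          right_inv := fun y => rfl }
  induction l with
  | zero =>
    intro n hn
    obtain ⟨g, hg, _⟩ := key n (by omega)
    haveI : Module.Finite (MonoidAlgebra k (A ⋊[φ] Q)) (MS φ π hπ f hf R (n + 2)) :=
      MS_FPn φ π hπ hfin f hf hid R (n + 1) 0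
    exact Module.Finite.of_surjective g hg
  | succ l ih =>
    intro n hn
    obtain ⟨g, hg, ⟨e⟩⟩ := key n (by omega)
    exact FPn.quot l g hg (FPn.of_equiv l e (ih (n + 1) (by omega)))
      (MS_FPn φ π hπ hfin f hf hid R (n + 1) (l + 1))

/-- The image of the degree zero part in the coefficient module. -/
noncomputable def IM (φ : Q →* MulAut A) (π : Q → E) (hπ : ∀ p q, π (p * q) = π p + π q)
    (f : Q → MonoidAlgebra k A) (hf : ∀ p q, al k φ p (f q) = f (p * q)) (R : ℝ) :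
    Submodule (MonoidAlgebra k (A ⋊[φ] Q)) (CC k A Q 0) :=
  (MS φ π hπ f hf R 1).map (bdL k φ 0)

theorem IM_FPn (φ : Q →* MulAut A) (π : Q → E) (hπ : ∀ p q, π (p * q) = π p + π q)
    (hfin : ∀ (c : E) (r : ℝ), {q | ‖π q - c‖ ≤ r}.Finite)
    (f : Q → MonoidAlgebra k A) (hf : ∀ p q, al k φ p (f q) = f (p * q))
    (hid : ∀ q, f q * f q = f q) (R : ℝ) (m : ℕ)
    (hex : ∀ n : ℕ, n + 2 ≤ m + 1 → ∀ v : CC k A Q (n + 1), IsM π f R v →
      bd Q (MonoidAlgebra k A) n v = 0 →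
      ∃ w : CC k A Q (n + 2), IsM π f R w ∧ bd Q (MonoidAlgebra k A) (n + 1) w = v) :
    FPn (MonoidAlgebra k (A ⋊[φ] Q)) m (IM φ π hπ f hf R) := by
  let g : MS φ π hπ f hf R 1 →ₗ[MonoidAlgebra k (A ⋊[φ] Q)] IM φ π hπ f hf R :=
    (bdL k φ 0).restrict (fun v hv => ⟨v, hv, rfl⟩)
  have hg : Function.Surjective g := by
    rintro ⟨_, v, hv, rfl⟩
    exact ⟨⟨v, hv⟩, rfl⟩
  have e : KM φ π hπ f hf R 0 ≃ₗ[MonoidAlgebra k (A ⋊[φ] Q)] LinearMap.ker g :=
    { toFun := fun x => ⟨⟨x.1, x.2.1⟩, by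
        rw [LinearMap.mem_ker]; exact Subtype.ext x.2.2⟩
      map_add' := fun x y => rfl
      map_smul' := fun r x => rfl
      invFun := fun y => ⟨y.1.1, y.1.2, by
        have := y.2
        rw [LinearMap.mem_ker] at this
        exact congrArg Subtype.val this⟩
      left_inv := fun x => rfl
      right_inv := fun y => rfl }
  rcases m with _ | m
  · haveI : Module.Finite (MonoidAlgebra k (A ⋊[φ] Q)) (MS φ π hπ f hf R 1) :=
      MS_FPn φ π hπ hfin f hf hid R 0 0
    exact Module.Finite.of_surjective g hg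
  · exact FPn.quot m g hg (FPn.of_equiv m e (KM_FPn φ π hπ hfin f hf hid R (m + 2) hex m 0
      (by omega))) (MS_FPn φ π hπ hfin f hf hid R 0 (m + 1))

end Pool.Agent.FPt
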