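import Pool.Agent.Lib.MP_f973c6_al.IfHalf.Defs

/-! Lattice facts and generators. -/

set_option autoImplicit false
set_option linter.all false

namespace Pool.Agent.FPt

open scoped DirectSum

theorem lattice_facts (Q : Type) [CommGroup Q] (hQ : Group.FG Q) :
    ∃ (n : ℕ) (π : Q → EuclideanSpace ℝ (Fin n)), (∀ p q, π (p * q) = π p + π q) ∧
      (∀ (c : EuclideanSpace ℝ (Fin n)) (r : ℝ), {q | ‖π q - c‖ ≤ r}.Finite) ∧
      (∃ C : ℝ, ∀ c : EuclideanSpace ℝ (Fin n), ∃ q, ‖π q - c‖ ≤ C) := by
  classical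
  haveI : AddGroup.FG (Additive Q) := inferInstance
  obtain ⟨n, ι, fι, p, hp, e, ⟨f⟩⟩ := AddCommGroup.equiv_free_prod_directSum_zmod (Additive Q)
  refine ⟨n, fun q => WithLp.toLp 2 (fun i => (((f (Additive.ofMul q)).1 i : ℤ) : ℝ)), ?_, ?_, ?_⟩
  · intro a b
    ext i
    simp [ofMul_mul, map_add]
  · intro c r
    have hfin1 : Finite (⨁ i : ι, ZMod (p i ^ e i)) := by
      haveI : ∀ i, NeZero (p i ^ e i) := fun i => ⟨pow_ne_zero _ (hp i).ne_zero⟩
      exact Finite.of_injective (fun (x : ⨁ i : ι, ZMod (p i ^ e i)) (i : ι) => x i)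
        DFunLike.coe_injective
    have hb : ({x : Fin n → ℤ | ∀ i, x i ∈ Set.Icc ⌈c i - r⌉ ⌊c i + r⌋}).Finite :=
      Set.Finite.pi' (fun i => Set.finite_Icc _ _)
    have h1 : ((fun q : Q => (⇑(f (Additive.ofMul q)).1, (f (Additive.ofMul q)).2)) ⁻¹'
        ({x : Fin n → ℤ | ∀ i, x i ∈ Set.Icc ⌈c i - r⌉ ⌊c i + r⌋} ×ˢ
          (Set.univ : Set (⨁ i : ι, ZMod (p i ^ e i))))).Finite := by
      apply Set.Finite.preimage
      · intro x _ y _ hxy
        have h2 := Prod.mk.inj hxy
        have h3 : f (Additive.ofMul x) = f (Additive.ofMul y) :=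
          Prod.ext (DFunLike.coe_injective h2.1) h2.2
        exact Additive.ofMul.injective (f.injective h3)
      · exact hb.prod (Set.toFinite _)
    refine h1.subset ?_
    intro q hq
    change ‖_‖ ≤ r at hq
    refine ⟨fun i => ?_, trivial⟩
    have h2 : |(((f (Additive.ofMul q)).1 i : ℤ) : ℝ) - c i| ≤ r := by
      have := EuclideanSpace.norm_eq
        (WithLp.toLp 2 (fun i => (((f (Additive.ofMul q)).1 i : ℤ) : ℝ)) - c)
      have h3 := PiLp.norm_apply_le
        (WithLp.toLp 2 (fun i => (((f (Additive.ofMul q)).1 i : ℤ) : ℝ)) - c) i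
      refine le_trans ?_ (le_trans h3 hq)
      simp
    rw [abs_le] at h2
    constructor
    · apply Int.ceil_le.mpr; linarith [h2.1]
    · apply Int.le_floor.mpr; linarith [h2.2]
  · refine ⟨Real.sqrt n, fun c => ?_⟩
    refine ⟨Additive.toMul (f.symm (Finsupp.equivFunOnFinite.symm (fun i => round (c i)), 0)), ?_⟩
    rw [EuclideanSpace.norm_eq]
    apply Real.sqrt_le_sqrt
    have h1 : ∀ i : Fin n, ‖(WithLp.toLp 2 (fun i => (((f (Additive.ofMul (Additive.toMul (f.symm
        (Finsupp.equivFunOnFinite.symm (fun i => round (c i)), 0))))).1 i : ℤ) : ℝ)) - c) i‖ ^ 2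
          ≤ (1 : ℝ) := by
      intro i
      have h2 : ‖(WithLp.toLp 2 (fun i => (((f (Additive.ofMul (Additive.toMul (f.symm
        (Finsupp.equivFunOnFinite.symm (fun i => round (c i)), 0))))).1 i : ℤ) : ℝ)) - c) i‖
          ≤ 1 := by
        have h3 := abs_sub_round (c i)
        simp only [PiLp.sub_apply, ofMul_toMul, AddEquiv.apply_symm_apply,
          Finsupp.coe_equivFunOnFinite_symm, Real.norm_eq_abs]
        rw [abs_sub_comm]
        linarith
      nlinarith [norm_nonneg ((WithLp.toLp 2 (fun i => (((f (Additive.ofMul (Additive.toMul (f.symm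
        (Finsupp.equivFunOnFinite.symm (fun i => round (c i)), 0))))).1 i : ℤ) : ℝ)) - c) i)]
    calc _ ≤ ∑ i : Fin n, (1 : ℝ) := Finset.sum_le_sum (fun i _ => h1 i)
      _ = n := by simp

theorem exists_gens {A Q : Type} [CommGroup A] [CommGroup Q] (φ : Q →* MulAut A)
    (hfg : Group.FG (A ⋊[φ] Q)) :
    Group.FG Q ∧ ∃ S : Finset A, Subgroup.closure {x : A | ∃ q : Q, ∃ s ∈ S, x = φ q s} = ⊤ := by
  classical
  refine ⟨?_, ?_⟩
  · exact Group.fg_of_surjective (f := (SemidirectProduct.rightHom : A ⋊[φ] Q →* Q))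
      SemidirectProduct.rightHom_surjective
  · obtain ⟨T, hT⟩ := hfg.out
    refine ⟨T.image (fun g => g.left), ?_⟩
    set S := T.image (fun g => g.left) with hS
    set C := Subgroup.closure {x : A | ∃ q : Q, ∃ s ∈ S, x = φ q s} with hC
    have hCφ : ∀ (q : Q) (x : A), x ∈ C → φ q x ∈ C := by
      intro q x hx
      rw [hC] at hx
      induction hx using Subgroup.closure_induction with
      | mem x hx =>
        obtain ⟨p, s, hs, rfl⟩ := hx
        apply Subgroup.subset_closure
        exact ⟨q * p, s, hs, by rw [map_mul]; rfl⟩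
      | one => rw [map_one]; exact C.one_mem
      | mul x y _ _ hx hy => rw [map_mul]; exact C.mul_mem hx hy
      | inv x _ hx => rw [map_inv]; exact C.inv_mem hx
    have hmain : ∀ g : A ⋊[φ] Q, g.left ∈ C := by
      intro g
      have hg : g ∈ Subgroup.closure (T : Set (A ⋊[φ] Q)) := by rw [hT]; trivial
      induction hg using Subgroup.closure_induction with
      | mem x hx =>
        apply Subgroup.subset_closure
        exact ⟨1, x.left, Finset.mem_image_of_mem _ hx, by rw [map_one]; rfl⟩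
      | one => exact C.one_mem
      | mul x y _ _ hx hy =>
        rw [SemidirectProduct.mul_left]
        exact C.mul_mem hx (hCφ _ _ hy)
      | inv x _ hx =>
        rw [SemidirectProduct.inv_left]
        exact hCφ _ _ (C.inv_mem hx)
    rw [eq_top_iff]
    intro a _
    exact hmain ⟨a, 1⟩

end Pool.Agent.FPt
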