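import Mathlib
import Pool.Agent.Lib.MP_f973c6_al.IfHalf.Defs

/-! Part D: tameness gives the hypothesis on balls. -/

set_option autoImplicit false

namespace Pool.Agent.FPt

open scoped Topology

section D

variable {A Q : Type} [CommGroup A] [CommGroup Q]

/-- The subgroup generated by the translates of `S` by the elements of `P`. -/
def genD (φ : Q →* MulAut A) (S : Finset A) (P : Q → Prop) : Subgroup A :=
  Subgroup.closure {x : A | ∃ z : Q, P z ∧ ∃ s' ∈ S, x = φ z s'}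

theorem genD_mono (φ : Q →* MulAut A) (S : Finset A) {P P' : Q → Prop} (h : ∀ z, P z → P' z) :
    genD φ S P ≤ genD φ S P' := by
  apply Subgroup.closure_mono
  rintro x ⟨z, hz, s, hs, rfl⟩
  exact ⟨z, h z hz, s, hs, rfl⟩

theorem mem_genD (φ : Q →* MulAut A) (S : Finset A) {P : Q → Prop} {z : Q} (hz : P z) {s : A}
    (hs : s ∈ S) : φ z s ∈ genD φ S P :=
  Subgroup.subset_closure ⟨z, hz, s, hs, rfl⟩

theorem genD_smul (φ : Q →* MulAut A) (S : Finset A) {P P' : Q → Prop} (t : Q)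
    (h : ∀ z, P z → P' (t * z)) {x : A} (hx : x ∈ genD φ S P) : φ t x ∈ genD φ S P' := by
  unfold genD at hx
  induction hx using Subgroup.closure_induction with
  | mem y hy =>
    obtain ⟨z, hz, s, hs, rfl⟩ := hy
    have : φ t (φ z s) = φ (t * z) s := by rw [map_mul]; rfl
    rw [this]
    exact mem_genD φ S (h z hz) hs
  | one => rw [map_one]; exact Subgroup.one_mem _
  | mul y z _ _ hy hz => rw [map_mul]; exact Subgroup.mul_mem _ hy hz
  | inv y _ hy => rw [map_inv]; exact Subgroup.inv_mem _ hy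

/-- A member of `genD` lies in `genD` for a finite set. -/
theorem genD_finite (φ : Q →* MulAut A) (S : Finset A) {P : Q → Prop} {x : A}
    (hx : x ∈ genD φ S P) :
    ∃ W : Finset Q, (∀ w ∈ W, P w) ∧ x ∈ genD φ S (fun z => z ∈ W) := by
  classical
  unfold genD at hx
  induction hx using Subgroup.closure_induction with
  | mem y hy =>
    obtain ⟨z, hz, s, hs, rfl⟩ := hy
    exact ⟨{z}, by simpa using hz, mem_genD φ S (by simp) hs⟩
  | one => exact ⟨∅, by simp, Subgroup.one_mem _⟩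
  | mul y z _ _ hy hz =>
    obtain ⟨W, hW, hyW⟩ := hy
    obtain ⟨W', hW', hzW'⟩ := hz
    refine ⟨W ∪ W', ?_, Subgroup.mul_mem _ (genD_mono φ S ?_ hyW) (genD_mono φ S ?_ hzW')⟩
    · intro w hw
      rcases Finset.mem_union.1 hw with h | h
      exacts [hW w h, hW' w h]
    · intro z hz; exact Finset.mem_union_left _ hz
    · intro z hz; exact Finset.mem_union_right _ hz
  | inv y _ hy =>
    obtain ⟨W, hW, hyW⟩ := hy
    exact ⟨W, hW, Subgroup.inv_mem _ hyW⟩

/-- The finite version for a finite set of elements. -/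
theorem genD_finite' (φ : Q →* MulAut A) (S : Finset A) {P : Q → Prop} (T : Finset A)
    (hT : ∀ x ∈ T, x ∈ genD φ S P) :
    ∃ W : Finset Q, (∀ w ∈ W, P w) ∧ ∀ x ∈ T, x ∈ genD φ S (fun z => z ∈ W) := by
  classical
  induction T using Finset.induction_on with
  | empty => exact ⟨∅, by simp, by simp⟩
  | insert a T _ ih =>
    obtain ⟨W, hW, h⟩ := ih (fun x hx => hT x (Finset.mem_insert_of_mem hx))
    obtain ⟨W', hW', h'⟩ := genD_finite φ S (hT a (Finset.mem_insert_self a T))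
    refine ⟨W ∪ W', ?_, ?_⟩
    · intro w hw
      rcases Finset.mem_union.1 hw with h | h
      exacts [hW w h, hW' w h]
    · intro x hx
      rcases Finset.mem_insert.1 hx with rfl | hx
      · exact genD_mono φ S (fun z hz => Finset.mem_union_right _ hz) h'
      · exact genD_mono φ S (fun z hz => Finset.mem_union_left _ hz) (h x hx)

/-- Walks in the half space of the Cayley graph. -/
theorem walk_left (φ : Q →* MulAut A) (χ : Additive (A ⋊[φ] Q) →+ ℝ) (T : Finset (A ⋊[φ] Q))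
    (K : Subgroup A)
    (hK : ∀ g : A ⋊[φ] Q, 0 ≤ χ (Additive.ofMul g) → ∀ s ∈ T, φ g.right s.left ∈ K)
    {u v : {g : A ⋊[φ] Q | 0 ≤ χ (Additive.ofMul g)}}
    (p : (SimpleGraph.induce {g : A ⋊[φ] Q | 0 ≤ χ (Additive.ofMul g)}
        (SimpleGraph.fromRel (fun g h : A ⋊[φ] Q => ∃ s ∈ T, h = g * s))).Walk u v) :
    u.1.left ∈ K → v.1.left ∈ K := by
  induction p with
  | nil => exact id
  | @cons a b c h p ih =>
    intro ha
    apply ih
    have h' := h
    simp only [SimpleGraph.comap_adj, Function.Embedding.subtype_apply,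
      SimpleGraph.fromRel_adj] at h'
    obtain ⟨_, h1 | h1⟩ := h'
    · obtain ⟨s, hs, hb⟩ := h1
      rw [hb, SemidirectProduct.mul_left]
      exact Subgroup.mul_mem _ ha (hK a.1 a.2 s hs)
    · obtain ⟨s, hs, hb⟩ := h1
      rw [hb, SemidirectProduct.mul_left] at ha
      have := Subgroup.mul_mem _ ha (Subgroup.inv_mem _ (hK b.1 b.2 s hs))
      simpa using this

/-- If the half space is connected, every element of a finite generating set is generated by
translates in the positive half space. -/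
theorem half_space (φ : Q →* MulAut A) (S : Finset A)
    (hS : Subgroup.closure {x : A | ∃ q : Q, ∃ s ∈ S, x = φ q s} = ⊤)
    (χ : Additive (A ⋊[φ] Q) →+ ℝ) (f : Q → ℝ)
    (hf : ∀ g : A ⋊[φ] Q, χ (Additive.ofMul g) = f g.right)
    (hf1 : f 1 = 0)
    (hfm : ∀ p q, f (p * q) = f p + f q) (hunb : ∃ q, 0 < f q)
    (hcon : ∃ T : Finset (A ⋊[φ] Q), Subgroup.closure (T : Set (A ⋊[φ] Q)) = ⊤ ∧
      (SimpleGraph.induce {g : A ⋊[φ] Q | 0 ≤ χ (Additive.ofMul g)}
        (SimpleGraph.fromRel (fun g h : A ⋊[φ] Q => ∃ s ∈ T, h = g * s))).Connected) :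
    ∃ W : Finset Q, (∀ w ∈ W, 0 < f w) ∧ ∀ s ∈ S, s ∈ genD φ S (fun z => z ∈ W) := by
  classical
  obtain ⟨T, -, hT⟩ := hcon
  -- a finite set F
  have hTS : ∀ x ∈ T.image (fun g => g.left), x ∈ genD φ S (fun _ => True) := by
    intro x _
    have : genD φ S (fun _ => True) = ⊤ := by
      rw [← hS]
      unfold genD
      simp
    rw [this]
    exact Subgroup.mem_top x
  obtain ⟨F, -, hF⟩ := genD_finite' φ S _ hTS
  -- lower bound on F
  obtain ⟨M, hM⟩ : ∃ M : ℝ, ∀ q ∈ F, M ≤ f q := by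
    obtain ⟨M, hM⟩ := (F.image f).bddBelow
    exact ⟨M, fun q hq => hM (by simpa using ⟨q, hq, rfl⟩)⟩
  have key : ∀ a : A, a ∈ genD φ S (fun z => M ≤ f z) := by
    intro a
    have h1 : (0 : ℝ) ≤ χ (Additive.ofMul (1 : A ⋊[φ] Q)) := by
      rw [hf]; simp [hf1]
    have h2 : (0 : ℝ) ≤ χ (Additive.ofMul (SemidirectProduct.inl a : A ⋊[φ] Q)) := by
      rw [hf]; simp [hf1]
    obtain ⟨p⟩ := hT.preconnected ⟨1, h1⟩ ⟨SemidirectProduct.inl a, h2⟩
    have := walk_left φ χ T (genD φ S (fun z => M ≤ f z)) ?_ p ?_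
    · simpa using this
    · intro g hg s hs
      rw [hf] at hg
      refine genD_smul φ S (P := fun z => z ∈ F) g.right ?_
        (hF s.left (Finset.mem_image_of_mem _ hs))
      intro z hz
      rw [hfm]
      have := hM z hz
      linarith
    · simp
  -- translate
  obtain ⟨q, hq⟩ := hunb
  have hpow : ∀ n : ℕ, f (q ^ n) = n * f q := by
    intro n
    induction n with
    | zero => simp [hf1]
    | succ n ih => rw [pow_succ, hfm, ih]; push_cast; ring
  obtain ⟨n, hn⟩ := exists_nat_gt (-M / f q)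
  have ht : -M < f (q ^ n) := by
    rw [hpow]
    rwa [div_lt_iff₀ hq] at hn
  refine genD_finite' φ S (P := fun z => 0 < f z) S ?_
  intro s _
  have := genD_smul φ S (P := fun z => M ≤ f z) (P' := fun z => 0 < f z) (q ^ n)
    (by intro z hz; rw [hfm]; linarith) (key (φ (q ^ n)⁻¹ s))
  rw [map_inv] at this
  simpa using this

variable {E : Type} [NormedAddCommGroup E] [InnerProductSpace ℝ E] [FiniteDimensional ℝ E]

/-- The character of `A ⋊ Q` given by a direction `u`. -/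
noncomputable def chiD (φ : Q →* MulAut A) (π : Q → E) (hπ : ∀ p q, π (p * q) = π p + π q)
    (u : E) : Additive (A ⋊[φ] Q) →+ ℝ :=
  AddMonoidHom.mk' (fun g => -(inner ℝ (π (Additive.toMul g).right) u)) (by
    intro a b
    change -(inner ℝ (π ((Additive.toMul a) * (Additive.toMul b)).right) u) = _
    rw [SemidirectProduct.mul_right, hπ, inner_add_left]
    ring)

/-- Configurations of unit vectors with the origin in the convex hull. -/
def KD (E : Type) [NormedAddCommGroup E] [InnerProductSpace ℝ E] (n : ℕ) : Set (Fin n → E) :=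
  {u | (∀ i, ‖u i‖ = 1) ∧ ∃ l ∈ stdSimplex ℝ (Fin n), ∑ i, l i • u i = 0}

theorem isCompact_KD (n : ℕ) : IsCompact (KD E n) := by
  have hcl : IsClosed {p : (Fin n → E) × (Fin n → ℝ) |
      (∀ i, ‖p.1 i‖ = 1) ∧ ∑ i, p.2 i • p.1 i = 0} := by
    apply IsClosed.and
    · simp only [Set.ofPred_forall]
      refine isClosed_iInter fun i => ?_
      exact isClosed_eq (by fun_prop) continuous_const
    · exact isClosed_eq (by fun_prop) continuous_const
  have hcomp : IsCompact ((Set.univ.pi fun _ : Fin n => Metric.closedBall (0 : E) 1) ×ˢ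
      stdSimplex ℝ (Fin n)) := by
    refine IsCompact.prod (isCompact_univ_pi fun _ => ?_) (isCompact_stdSimplex ℝ _)
    exact isCompact_closedBall _ _
  have h2 := (hcomp.inter_right hcl).image (continuous_fst)
  convert h2 using 1
  ext u
  constructor
  · rintro ⟨h1, l, hl, h0⟩
    refine ⟨(u, l), ⟨⟨?_, hl⟩, h1, h0⟩, rfl⟩
    intro i _
    simp [h1 i]
  · rintro ⟨⟨u', l⟩, ⟨⟨_, hl⟩, h1, h0⟩, rfl⟩
    exact ⟨h1, l, hl, h0⟩

theorem local_stepD (φ : Q →* MulAut A)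
    (π : Q → E) (hπ : ∀ p q, π (p * q) = π p + π q)
    (hcob : ∃ C : ℝ, ∀ c : E, ∃ q, ‖π q - c‖ ≤ C)
    (S : Finset A) (hS : Subgroup.closure {x : A | ∃ q : Q, ∃ s ∈ S, x = φ q s} = ⊤)
    (m : ℕ) (ht : FPm.TameCond (A ⋊[φ] Q) m) (n : ℕ) (hn : n ≤ m) (u : Fin n → E)
    (hu : u ∈ KD E n) :
    ∃ t ∈ 𝓝[KD E n] u, ∃ R0 : ℝ, ∀ u' ∈ t, (∀ i, ‖u' i‖ = 1) → ∀ (c : E) (ρ : ℝ)
      (τ : Fin n → Q), R0 < ρ → (∀ i, π (τ i) - c = ρ • u' i) →
        ∃ i, ∀ s ∈ S, φ (τ i) s ∈ genD φ S (fun z => ‖π z - c‖ < ρ) := by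
  classical
  obtain ⟨h1, l, hl, h0⟩ := hu
  obtain ⟨C, hC⟩ := hcob
  have hC0 : 0 ≤ C := by
    obtain ⟨q, hq⟩ := hC 0
    exact (norm_nonneg _).trans hq
  have hπ1 : π 1 = 0 := by
    have := hπ 1 1
    rw [mul_one] at this
    simpa using this
  -- positivity somewhere
  have hpos : ∀ i, ∃ q, 0 < -(inner ℝ (π q) (u i)) := by
    intro i
    obtain ⟨q, hq⟩ := hC (-(C + 1) • u i)
    refine ⟨q, ?_⟩
    have e1 : π q = (π q - (-(C + 1) • u i)) + (-(C + 1) • u i) := by abel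
    rw [e1, inner_add_left, inner_smul_left, real_inner_self_eq_norm_sq, h1 i]
    have e2 : inner ℝ (π q - (-(C + 1) • u i)) (u i) ≤ C := by
      refine (real_inner_le_norm _ _).trans ?_
      rw [h1 i, mul_one]
      exact hq
    simp only [conj_trivial]
    linarith
  -- tameness
  have hex : ∃ i, ∃ T : Finset (A ⋊[φ] Q), Subgroup.closure (T : Set (A ⋊[φ] Q)) = ⊤ ∧
      (SimpleGraph.induce {g : A ⋊[φ] Q | 0 ≤ chiD φ π hπ (u i) (Additive.ofMul g)}
        (SimpleGraph.fromRel (fun g h : A ⋊[φ] Q => ∃ s ∈ T, h = g * s))).Connected := by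
    by_contra hcon
    push Not at hcon
    refine ht n hn (fun i => chiD φ π hπ (u i)) ?_ ⟨l, hl.1, ?_, ?_⟩
    · intro i
      refine ⟨?_, ?_⟩
      · intro h
        obtain ⟨q, hq⟩ := hpos i
        have := DFunLike.congr_fun h (Additive.ofMul (SemidirectProduct.inr q : A ⋊[φ] Q))
        simp only [chiD, AddMonoidHom.mk'_apply, toMul_ofMul, SemidirectProduct.right_inr,
          AddMonoidHom.zero_apply] at this
        linarith
      · rintro ⟨T, hT1, hT2⟩
        exact hcon i T hT1 hT2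
    · by_contra hz
      push Not at hz
      have := hl.2
      simp [hz] at this
    · intro g
      simp only [chiD, AddMonoidHom.mk'_apply, toMul_ofMul]
      have : inner ℝ (π g.right) (∑ i, l i • u i) = 0 := by rw [h0, inner_zero_right]
      rw [inner_sum] at this
      simp only [inner_smul_right] at this
      rw [← neg_eq_zero, ← Finset.sum_neg_distrib]
      rw [← this]
      apply Finset.sum_congr rfl
      intro i _
      ring
  obtain ⟨i, hi⟩ := hex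
  obtain ⟨W, hW, hWS⟩ := half_space φ S hS (chiD φ π hπ (u i)) (fun q => -(inner ℝ (π q) (u i)))
    (by intro g; simp [chiD]) (by simp [hπ1])
    (by intro p q; rw [hπ, inner_add_left]; ring) (hpos i) hi
  refine ⟨{u' | ∀ w ∈ W, inner ℝ (π w) (u' i) < inner ℝ (π w) (u i) / 2}, ?_,
    ∑ w ∈ W, ‖π w‖ ^ 2 / (-(inner ℝ (π w) (u i))), ?_⟩
  · apply mem_nhdsWithin_of_mem_nhds
    refine (Filter.eventually_all_finset W).2 ?_
    intro w hw
    have hc : Continuous fun u' : Fin n → E => inner ℝ (π w) (u' i) := by fun_prop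
    apply hc.continuousAt.eventually_lt continuousAt_const
    have := hW w hw
    linarith
  · intro u' hu' hn' c ρ τ hρ hτ
    refine ⟨i, fun s hs => genD_smul φ S (P := fun z => z ∈ W) (τ i) ?_ (hWS s hs)⟩
    intro w hw
    have hfw : 0 < -(inner ℝ (π w) (u i)) := hW w hw
    have hle : ‖π w‖ ^ 2 / (-(inner ℝ (π w) (u i))) ≤
        ∑ w ∈ W, ‖π w‖ ^ 2 / (-(inner ℝ (π w) (u i))) :=
      Finset.single_le_sum (f := fun w => ‖π w‖ ^ 2 / (-(inner ℝ (π w) (u i))))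
        (fun w hw => div_nonneg (sq_nonneg _) (hW w hw).le) hw
    have hρ' : ‖π w‖ ^ 2 / (-(inner ℝ (π w) (u i))) < ρ := hle.trans_lt hρ
    have hρ0 : 0 < ρ := lt_of_le_of_lt (div_nonneg (sq_nonneg _) hfw.le) hρ'
    rw [div_lt_iff₀ hfw] at hρ'
    have hu2 : inner ℝ (π w) (u' i) < inner ℝ (π w) (u i) / 2 := hu' w hw
    have e1 : π (τ i * w) - c = ρ • u' i + π w := by
      rw [hπ, ← hτ i]; abel
    have e2 : ‖ρ • u' i + π w‖ ^ 2 < ρ ^ 2 := by
      rw [norm_add_sq_real, norm_smul, hn' i, inner_smul_left, real_inner_comm (π w) (u' i)]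
      simp only [conj_trivial, Real.norm_eq_abs, mul_one, sq_abs]
      nlinarith [mul_lt_mul_of_pos_left hu2 hρ0]
    change ‖π (τ i * w) - c‖ < ρ
    rw [e1]
    exact lt_of_pow_lt_pow_left₀ 2 hρ0.le e2

theorem tame_hyp_n (φ : Q →* MulAut A)
    (π : Q → E) (hπ : ∀ p q, π (p * q) = π p + π q)
    (hcob : ∃ C : ℝ, ∀ c : E, ∃ q, ‖π q - c‖ ≤ C)
    (S : Finset A) (hS : Subgroup.closure {x : A | ∃ q : Q, ∃ s ∈ S, x = φ q s} = ⊤)
    (m : ℕ) (ht : FPm.TameCond (A ⋊[φ] Q) m) (n : ℕ) (hn : n ≤ m) :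
    ∃ R0 : ℝ, ∀ u' ∈ KD E n, (∀ i, ‖u' i‖ = 1) → ∀ (c : E) (ρ : ℝ)
      (τ : Fin n → Q), R0 < ρ → (∀ i, π (τ i) - c = ρ • u' i) →
        ∃ i, ∀ s ∈ S, φ (τ i) s ∈ genD φ S (fun z => ‖π z - c‖ < ρ) := by
  refine (isCompact_KD (E := E) n).induction_on
    (p := fun t => ∃ R0 : ℝ, ∀ u' ∈ t, (∀ i, ‖u' i‖ = 1) → ∀ (c : E) (ρ : ℝ)
      (τ : Fin n → Q), R0 < ρ → (∀ i, π (τ i) - c = ρ • u' i) →
        ∃ i, ∀ s ∈ S, φ (τ i) s ∈ genD φ S (fun z => ‖π z - c‖ < ρ)) ?_ ?_ ?_ ?_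
  · exact ⟨0, by simp⟩
  · rintro s t hst ⟨R0, h⟩
    exact ⟨R0, fun u' hu' => h u' (hst hu')⟩
  · rintro s t ⟨R1, h1⟩ ⟨R2, h2⟩
    refine ⟨max R1 R2, ?_⟩
    rintro u' (hu' | hu') hn' c ρ τ hρ hτ
    · exact h1 u' hu' hn' c ρ τ (lt_of_le_of_lt (le_max_left _ _) hρ) hτ
    · exact h2 u' hu' hn' c ρ τ (lt_of_le_of_lt (le_max_right _ _) hρ) hτ
  · intro u hu
    exact local_stepD φ π hπ hcob S hS m ht n hn u hu

theorem tame_hyp {A Q : Type} [CommGroup A] [CommGroup Q] (φ : Q →* MulAut A)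
    {E : Type} [NormedAddCommGroup E] [InnerProductSpace ℝ E] [FiniteDimensional ℝ E]
    (π : Q → E) (hπ : ∀ p q, π (p * q) = π p + π q)
    (hcob : ∃ C : ℝ, ∀ c : E, ∃ q, ‖π q - c‖ ≤ C)
    (S : Finset A) (hS : Subgroup.closure {x : A | ∃ q : Q, ∃ s ∈ S, x = φ q s} = ⊤)
    (m : ℕ) (ht : FPm.TameCond (A ⋊[φ] Q) m) :
    ∃ R0 : ℝ, ∀ (c : E) (ρ : ℝ), R0 < ρ → ∀ (n : ℕ) (τ : Fin n → Q), n ≤ m →
      (∀ i, ‖π (τ i) - c‖ = ρ) → c ∈ convexHull ℝ (Set.range fun i => π (τ i)) →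
      ∃ i, ∀ s ∈ S, φ (τ i) s ∈
        Subgroup.closure {x : A | ∃ z : Q, ‖π z - c‖ < ρ ∧ ∃ s' ∈ S, x = φ z s'} := by
  classical
  have H : ∀ n : ℕ, ∃ R0 : ℝ, n ≤ m → ∀ u' ∈ KD E n, (∀ i, ‖u' i‖ = 1) → ∀ (c : E) (ρ : ℝ)
      (τ : Fin n → Q), R0 < ρ → (∀ i, π (τ i) - c = ρ • u' i) →
        ∃ i, ∀ s ∈ S, φ (τ i) s ∈ genD φ S (fun z => ‖π z - c‖ < ρ) := by
    intro n
    by_cases hn : n ≤ m
    · obtain ⟨R0, h⟩ := tame_hyp_n φ π hπ hcob S hS m ht n hn
      exact ⟨R0, fun _ => h⟩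
    · exact ⟨0, fun h => absurd h hn⟩
  choose R hR using H
  obtain ⟨R0, hR0⟩ : ∃ R0 : ℝ, ∀ n ∈ Finset.range (m + 1), R n ≤ R0 := by
    obtain ⟨M, hM⟩ := ((Finset.range (m + 1)).image R).bddAbove
    exact ⟨M, fun q hq => hM (by simpa using ⟨q, by simpa using hq, rfl⟩)⟩
  refine ⟨max R0 0, ?_⟩
  intro c ρ hρ n τ hn hsph hconv
  have hρ0 : 0 < ρ := lt_of_le_of_lt (le_max_right _ _) hρ
  have hρR : R n < ρ :=
    lt_of_le_of_lt ((hR0 n (by simp; omega)).trans (le_max_left _ _)) hρ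
  have hnorm : ∀ i, ‖ρ⁻¹ • (π (τ i) - c)‖ = 1 := by
    intro i
    rw [norm_smul, hsph i, norm_inv, Real.norm_of_nonneg hρ0.le, inv_mul_cancel₀ hρ0.ne']
  refine hR n hn (fun i => ρ⁻¹ • (π (τ i) - c)) ⟨hnorm, ?_⟩ hnorm c ρ τ hρR ?_
  · rw [mem_convexHull_iff_exists_fintype] at hconv
    obtain ⟨ι, _, w, z, hw0, hw1, hz, hsum⟩ := hconv
    choose k hk using hz
    refine ⟨fun i => ∑ j with k j = i, w j, ⟨?_, ?_⟩, ?_⟩
    · intro i; exact Finset.sum_nonneg fun j _ => hw0 j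
    · rw [← hw1]
      exact Finset.sum_fiberwise _ _ _
    · have e1 : ∀ i, (∑ j with k j = i, w j) • (ρ⁻¹ • (π (τ i) - c)) =
          ρ⁻¹ • ∑ j with k j = i, w j • (z j - c) := by
        intro i
        rw [smul_comm, Finset.sum_smul]
        congr 1
        apply Finset.sum_congr rfl
        intro j hj
        rw [Finset.mem_filter] at hj
        rw [← hk j, hj.2]
      simp only [e1]
      rw [← Finset.smul_sum, Finset.sum_fiberwise]
      simp only [smul_sub, Finset.sum_sub_distrib, hsum]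
      rw [← Finset.sum_smul, hw1, one_smul, sub_self]
  · intro i
    rw [smul_smul, mul_inv_cancel₀ hρ0.ne', one_smul]

end D

end Pool.Agent.FPt
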