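import Pool.Agent.Lib.MP_f973c6_al.IfHalf.E4
import Pool.Agent.Lib.MP_f973c6_al.IfHalf.PartD

/-! The augmentation ideal is of type FP_(m-1). -/

set_option autoImplicit false
set_option linter.all false

namespace Pool.Agent.FPt

variable {k A Q : Type} [CommRing k] [CommGroup A] [CommGroup Q]
variable {E : Type} [NormedAddCommGroup E] [InnerProductSpace ℝ E]

theorem RadLe_one_point (π : Q → E) (τ : Fin 1 → Q) (R : ℝ) (hR : 0 ≤ R) : RadLe π τ R := by
  refine ⟨π (τ 0), 0, ⟨?_, ?_⟩, hR⟩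
  · rintro p ⟨i, rfl⟩
    have : i = 0 := Subsingleton.elim _ _
    rw [this]; simp
  · apply subset_convexHull
    exact ⟨⟨0, rfl⟩, by simp⟩

/-- The augmentation of the group algebra of the semidirect product. -/
noncomputable def Ps (k : Type) [CommRing k] (φ : Q →* MulAut A) :
    MonoidAlgebra k (A ⋊[φ] Q) →ₗ[MonoidAlgebra k (A ⋊[φ] Q)] CC k A Q 0 :=
  LinearMap.toSpanSingleton _ _ (sg Fin.elim0 1)

/-- The free generator in degree one. -/
noncomputable def Fi (k : Type) [CommRing k] (φ : Q →* MulAut A) :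
    MonoidAlgebra k (A ⋊[φ] Q) →ₗ[MonoidAlgebra k (A ⋊[φ] Q)] CC k A Q 1 :=
  LinearMap.toSpanSingleton _ _ (sg (fun _ => 1) 1)

theorem bd_sg_one (τ : Fin 1 → Q) (b : MonoidAlgebra k A) :
    bd Q (MonoidAlgebra k A) 0 (sg τ b) = sg Fin.elim0 b := by
  change bd Q (MonoidAlgebra k A) 0 (Finsupp.single τ b) = Finsupp.single Fin.elim0 b
  rw [bd_single]
  have h : (Finset.univ : Finset (Fin (0 + 1))) = {0} := rfl
  rw [h, Finset.sum_singleton]
  congr 1
  · funext i
    exact i.elim0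
  · simp

theorem bdL_Fi (φ : Q →* MulAut A) (x : MonoidAlgebra k (A ⋊[φ] Q)) :
    bdL k φ 0 (Fi k φ x) = Ps k φ x := by
  unfold Fi Ps
  rw [LinearMap.toSpanSingleton_apply, LinearMap.toSpanSingleton_apply, map_smul, bdL_apply,
    bd_sg_one]

theorem Fi_eq (φ : Q →* MulAut A) (π : Q → E) (R : ℝ) (t : TT π R 0)
    (x : MonoidAlgebra k (A ⋊[φ] Q)) :
    Fi k φ x = Ph k φ π R 0 (Finsupp.single t x) := by
  unfold Fi Ph
  rw [LinearMap.toSpanSingleton_apply, Finsupp.linearCombination_single]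
  congr 2
  funext i
  have : i = 0 := Subsingleton.elim _ _
  rw [this]; rfl

theorem Fi_injective (φ : Q →* MulAut A) (π : Q → E) (R : ℝ) (t : TT π R 0) :
    Function.Injective (Fi k φ) := by
  intro x y h
  rw [Fi_eq φ π R t, Fi_eq φ π R t] at h
  exact Finsupp.single_injective t (Ph_injective φ π R 0 h)

theorem Fi_surjective (φ : Q →* MulAut A) (π : Q → E) (hπ : ∀ p q, π (p * q) = π p + π q)
    (R : ℝ) (hR : 0 ≤ R) (t : TT π R 0) (v : CC k A Q 1) : ∃ x, Fi k φ x = v := by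
  have hv : v ∈ LinearMap.range (Ph k φ π R 0) := by
    rw [Ph_range φ π hπ R 0, mem_MS]
    intro τ
    exact ⟨by simp, fun _ => RadLe_one_point π τ R hR⟩
  obtain ⟨y, rfl⟩ := hv
  refine ⟨y t, ?_⟩
  rw [Fi_eq φ π R t]
  congr 1
  apply Finsupp.ext
  intro s
  have : s = t := by
    apply Subtype.ext
    exact Subsingleton.elim _ _
  rw [this, Finsupp.single_eq_same]

theorem ker_Ps_FPn (φ : Q →* MulAut A) (π : Q → E) (hπ : ∀ p q, π (p * q) = π p + π q)
    (hfin : ∀ (c : E) (r : ℝ), {q | ‖π q - c‖ ≤ r}.Finite)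
    (hcob : ∃ C : ℝ, ∀ c : E, ∃ q, ‖π q - c‖ ≤ C) (l : ℕ) :
    FPn (MonoidAlgebra k (A ⋊[φ] Q)) l (LinearMap.ker (Ps k φ)) := by
  obtain ⟨C, hC⟩ := hcob
  set R : ℝ := max C 0 with hR
  have hR0 : 0 ≤ R := le_max_right _ _
  have t : TT π R 0 := ⟨Fin.elim0, RadLe_one_point π _ R hR0⟩
  have hex : ∀ n : ℕ, n + 2 ≤ l + 2 → ∀ v : CC k A Q (n + 1),
      IsM π (fun _ => (1 : MonoidAlgebra k A)) R v →
      bd Q (MonoidAlgebra k A) n v = 0 →
      ∃ w : CC k A Q (n + 2), IsM π (fun _ => (1 : MonoidAlgebra k A)) R w ∧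
        bd Q (MonoidAlgebra k A) (n + 1) w = v := by
    intro n hn v hv hd
    refine exact_core π hfin (fun R n => radii_finite π hπ hfin R n)
      (fun _ => (1 : MonoidAlgebra k A)) (fun q => mul_one 1) (l + 2) R ?_ R le_rfl n hn v hv hd
    intro c ρ hρ n' τ _ _ _ Z hZ
    obtain ⟨q, hq⟩ := hC c
    have hqZ : q ∈ Z := (hZ q).2 (lt_of_le_of_lt (le_trans hq (le_max_left _ _)) hρ)
    rw [Finset.prod_eq_zero hqZ (sub_self _), mul_zero]
  have h1 := KM_FPn (k := k) φ π hπ hfin (fun _ => (1 : MonoidAlgebra k A))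
    (fun p q => map_one _) (fun q => mul_one 1) R (l + 2) hex l 0 (by omega)
  refine FPn.of_equiv l (LinearEquiv.symm ?_) h1
  have hmem : ∀ v : CC k A Q 1, bdL k φ 0 v = 0 →
      v ∈ KM φ π hπ (fun _ => (1 : MonoidAlgebra k A)) (fun p q => map_one _) R 0 := by
    intro v hv
    exact ⟨fun τ => ⟨by simp, fun _ => RadLe_one_point π τ R hR0⟩, hv⟩
  have hx0 : ∀ x ∈ LinearMap.ker (Ps k φ), Fi k φ x ∈
      KM φ π hπ (fun _ => (1 : MonoidAlgebra k A)) (fun p q => map_one _) R 0 := by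
    intro x hx
    apply hmem
    rw [bdL_Fi]
    exact LinearMap.mem_ker.mp hx
  let T : LinearMap.ker (Ps k φ) →ₗ[MonoidAlgebra k (A ⋊[φ] Q)]
      KM φ π hπ (fun _ => (1 : MonoidAlgebra k A)) (fun p q => map_one _) R 0 :=
    (Fi k φ).restrict hx0
  refine LinearEquiv.ofBijective T ⟨?_, ?_⟩
  · intro x y hxy
    apply Subtype.ext
    exact Fi_injective φ π R t (congrArg Subtype.val hxy)
  · rintro ⟨v, hv1, hv2⟩
    obtain ⟨x, hx⟩ := Fi_surjective φ π hπ R hR0 t v
    refine ⟨⟨x, ?_⟩, Subtype.ext hx⟩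
    change Ps k φ x = 0
    rw [← bdL_Fi, hx]
    exact hv2

theorem Ps_surjective (φ : Q →* MulAut A) : Function.Surjective (Ps k φ) := by
  intro v
  have hv : ∀ b : MonoidAlgebra k A, ∃ x, Ps k φ x = sg Fin.elim0 b := by
    intro b
    induction b using MonoidAlgebra.induction_linear with
    | zero => exact ⟨0, by simp⟩
    | add x y hx hy =>
      obtain ⟨x', hx'⟩ := hx
      obtain ⟨y', hy'⟩ := hy
      exact ⟨x' + y', by rw [map_add, hx', hy']; exact (Finsupp.single_add _ _ _).symm⟩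
    | single a r =>
      refine ⟨MonoidAlgebra.single ⟨a, 1⟩ r, ?_⟩
      unfold Ps
      rw [LinearMap.toSpanSingleton_apply, smul_single_modL, act_sg, bt_apply, map_one, mul_one,
        Finsupp.smul_single]
      congr 1
      · funext i; exact i.elim0
      · rw [MonoidAlgebra.of_apply, MonoidAlgebra.smul_single, smul_eq_mul, mul_one]
  obtain ⟨x, hx⟩ := hv (v Fin.elim0)
  refine ⟨x, hx.trans ?_⟩
  apply Finsupp.ext
  intro τ
  have : τ = Fin.elim0 := Subsingleton.elim _ _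
  rw [this]
  simp [sg]

/-- The augmentation of the group ring. -/
noncomputable def epsG (k : Type) [CommRing k] (G : Type) [Group G] :
    MonoidAlgebra k G →ₐ[k] k := MonoidAlgebra.lift k k G 1

theorem epsG_of (G : Type) [Group G] (g : G) : epsG k G (MonoidAlgebra.of k G g) = 1 := by
  simp [epsG]

theorem aug_Ps (φ : Q →* MulAut A) (x : MonoidAlgebra k (A ⋊[φ] Q)) :
    aug k A (Ps k φ x Fin.elim0) = epsG k (A ⋊[φ] Q) x := by
  induction x using MonoidAlgebra.induction_linear with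
  | zero => simp
  | add x y hx hy => rw [map_add, Finsupp.add_apply, map_add, hx, hy, map_add]
  | single g r =>
    unfold Ps
    rw [LinearMap.toSpanSingleton_apply, smul_single_modL, act_sg, bt_apply, map_one, mul_one]
    have h : tr g.right (Fin.elim0 : Fin 0 → Q) = Fin.elim0 := Subsingleton.elim _ _
    rw [h]
    simp only [sg]
    rw [Finsupp.smul_single, Finsupp.single_eq_same, map_smul, aug_of]
    unfold epsG
    rw [MonoidAlgebra.lift_single]
    simp

theorem IM_ff (φ : Q →* MulAut A) (π : Q → E) (hπ : ∀ p q, π (p * q) = π p + π q)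
    (S : Finset A) (c : k) (e : ℕ) (hc : c * (e : k) = 1) (hA : ∀ a : A, a ^ e = 1)
    (hS : Subgroup.closure {x : A | ∃ q : Q, ∃ s ∈ S, x = φ q s} = ⊤)
    (R : ℝ) (hR : 0 ≤ R) (v : CC k A Q 0) :
    v ∈ IM φ π hπ (ff φ S c e) (al_ff φ S c e) R ↔ aug k A (v Fin.elim0) = 0 := by
  classical
  constructor
  · rintro ⟨w, hw, rfl⟩
    change IsM π _ R w at hw
    rw [bdL_apply]
    have h0 : w = w.sum (fun τ b => sg τ b) := (Finsupp.sum_single w).symm
    have h1 : bd Q (MonoidAlgebra k A) 0 w = w.sum (fun τ b => sg Fin.elim0 b) := by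
      conv_lhs => rw [h0]
      unfold Finsupp.sum
      rw [map_sum]
      exact Finset.sum_congr rfl (fun τ _ => bd_sg_one τ _)
    rw [h1]
    unfold Finsupp.sum
    rw [Finsupp.finset_sum_apply, map_sum]
    refine Finset.sum_eq_zero (fun τ _ => ?_)
    simp only [sg]
    rw [Finsupp.single_eq_same, ← (hw τ).1, map_mul]
    have h2 : aug k A (∏ i, ff φ S c e (τ i)) = 0 := by
      rw [map_prod]
      exact Finset.prod_eq_zero (Finset.mem_univ (0 : Fin 1)) (aug_ff φ S c e hc _)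
    rw [h2, zero_mul]
  · intro hv
    have h1 := ker_aug_le φ S c e hA hS _ hv
    have h2 : ∀ b ∈ Ideal.span (Set.range (ff φ S c e)), ∀ a : MonoidAlgebra k A,
        (sg Fin.elim0 (a * b) : CC k A Q 0) ∈ IM φ π hπ (ff φ S c e) (al_ff φ S c e) R := by
      intro b hb
      induction hb using Submodule.span_induction with
      | mem x hx =>
        obtain ⟨q, rfl⟩ := hx
        intro a
        refine ⟨sg (fun _ => q) (a * ff φ S c e q), ?_, bd_sg_one _ _⟩
        change IsM π _ R _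
        intro τ
        refine ⟨?_, fun _ => RadLe_one_point π τ R hR⟩
        simp only [sg]
        rw [Finsupp.single_apply]
        split_ifs with h
        · rw [← h]
          simp only [Finset.univ_unique, Finset.prod_singleton]
          have := ff_idem φ S c e hc hA q
          linear_combination a * this
        · rw [mul_zero]
      | zero => intro a; simp
      | add x y _ _ hx hy =>
        intro a
        have : (sg Fin.elim0 (a * (x + y)) : CC k A Q 0) =
            sg Fin.elim0 (a * x) + sg Fin.elim0 (a * y) := by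
          rw [mul_add]; exact Finsupp.single_add _ _ _
        rw [this]
        exact Submodule.add_mem _ (hx a) (hy a)
      | smul r x _ hx =>
        intro a
        rw [smul_eq_mul, ← mul_assoc]
        exact hx (a * r)
    have h3 := h2 _ h1 1
    rw [one_mul] at h3
    have h4 : (sg Fin.elim0 (v Fin.elim0) : CC k A Q 0) = v := by
      apply Finsupp.ext
      intro τ
      have : τ = Fin.elim0 := Subsingleton.elim _ _
      rw [this]
      simp [sg]
    rwa [h4] at h3

theorem ker_eps_FPn (φ : Q →* MulAut A) [FiniteDimensional ℝ E] (π : Q → E)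
    (hπ : ∀ p q, π (p * q) = π p + π q)
    (hfin : ∀ (c : E) (r : ℝ), {q | ‖π q - c‖ ≤ r}.Finite)
    (hcob : ∃ C : ℝ, ∀ c : E, ∃ q, ‖π q - c‖ ≤ C)
    (S : Finset A) (hS : Subgroup.closure {x : A | ∃ q : Q, ∃ s ∈ S, x = φ q s} = ⊤)
    (c : k) (e : ℕ) (hc : c * (e : k) = 1) (hA : ∀ a : A, a ^ e = 1)
    (m : ℕ) (ht : FPm.TameCond (A ⋊[φ] Q) (m + 1)) :
    FPn (MonoidAlgebra k (A ⋊[φ] Q)) m (RingHom.ker (epsG k (A ⋊[φ] Q))) := by
  classical
  obtain ⟨R0, hR0⟩ := tame_hyp φ π hπ hcob S hS (m + 1) ht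
  set R : ℝ := max R0 0 with hR
  have hRn : 0 ≤ R := le_max_right _ _
  have hex : ∀ n : ℕ, n + 2 ≤ m + 1 → ∀ v : CC k A Q (n + 1),
      IsM π (ff φ S c e) R v → bd Q (MonoidAlgebra k A) n v = 0 →
      ∃ w : CC k A Q (n + 2), IsM π (ff φ S c e) R w ∧
        bd Q (MonoidAlgebra k A) (n + 1) w = v := by
    intro n hn v hv hd
    refine exact_core π hfin (fun R n => radii_finite π hπ hfin R n)
      (ff φ S c e) (fun q => ff_idem φ S c e hc hA q) (m + 1) R0 ?_ R (le_max_left _ _) n hn v hv hd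
    intro c' ρ hρ n' τ hn' h1 h2 Z hZ
    obtain ⟨i, hi⟩ := hR0 c' ρ hρ n' τ hn' h1 h2
    have h3 : ff φ S c e (τ i) * ∏ z ∈ Z, (1 - ff φ S c e z) = 0 := by
      apply ff_mul_prod φ S c e hc hA
      intro s hs
      refine Subgroup.closure_mono ?_ (hi s hs)
      rintro x ⟨z, hz, s', hs', rfl⟩
      exact ⟨z, (hZ z).2 hz, s', hs', rfl⟩
    rw [← Finset.mul_prod_erase Finset.univ _ (Finset.mem_univ i)]
    rw [mul_comm (ff φ S c e (τ i)), mul_assoc, h3, mul_zero]
  have h1 := IM_FPn (k := k) φ π hπ hfin (ff φ S c e) (al_ff φ S c e)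
    (fun q => ff_idem φ S c e hc hA q) R m hex
  have hmem : ∀ x : MonoidAlgebra k (A ⋊[φ] Q),
      Ps k φ x ∈ IM φ π hπ (ff φ S c e) (al_ff φ S c e) R ↔ epsG k (A ⋊[φ] Q) x = 0 := by
    intro x
    rw [IM_ff φ π hπ S c e hc hA hS R hRn, aug_Ps]
  let g : (RingHom.ker (epsG k (A ⋊[φ] Q))) →ₗ[MonoidAlgebra k (A ⋊[φ] Q)]
      IM φ π hπ (ff φ S c e) (al_ff φ S c e) R :=
    (Ps k φ).restrict (fun x hx => (hmem x).2 (RingHom.mem_ker.mp hx))
  have hg : Function.Surjective g := by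
    rintro ⟨v, hv⟩
    obtain ⟨x, rfl⟩ := Ps_surjective (k := k) φ v
    exact ⟨⟨x, RingHom.mem_ker.mpr ((hmem x).1 hv)⟩, rfl⟩
  have e1 : LinearMap.ker (Ps k φ) ≃ₗ[MonoidAlgebra k (A ⋊[φ] Q)] LinearMap.ker g :=
    { toFun := fun x => ⟨⟨x.1, by
          rw [RingHom.mem_ker, ← hmem, x.2]; exact Submodule.zero_mem _⟩, by
          rw [LinearMap.mem_ker]; exact Subtype.ext x.2⟩
      map_add' := fun x y => rfl
      map_smul' := fun r x => rfl
      invFun := fun y => ⟨y.1.1, by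
        have := y.2
        rw [LinearMap.mem_ker] at this
        exact congrArg Subtype.val this⟩
      left_inv := fun x => rfl
      right_inv := fun y => rfl }
  exact FPn.ext m g hg (FPn.of_equiv m e1 (ker_Ps_FPn φ π hπ hfin hcob m)) h1

end Pool.Agent.FPt
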